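import Pool.Agent.Q85.Mon.Har

/-! # The cross terms -/

set_option autoImplicit false

open MeasureTheory Set Filter Topology

namespace Pool.Agent.Q85.Mon

open Pool.Agent.Y749.Rig

/-- the sum over the zeros with the weight `1 / (1 + |γ - x|)` -/
theorem rowsum : ∃ C : ℝ, 0 < C ∧ ∀ T : ℝ, 10 ≤ T → ∀ x : ℝ, 0 ≤ x → x ≤ T →
    ∑ s ∈ ZZ T, mm s / (1 + |s.im - x|) ≤ C * Real.log T ^ 2 := by
  classical
  obtain ⟨C, hC, h⟩ := sup_fw
  refine ⟨6 * C, by positivity, fun T hT x hx0 hxT => ?_⟩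
  have hL := one_lt_log (show 3 ≤ T by linarith)
  obtain ⟨N, hN⟩ : ∃ N : ℕ, N = ⌊T⌋₊ + 1 := ⟨_, rfl⟩
  have hmaps : ∀ s ∈ ZZ T, ⌊|s.im - x|⌋₊ ∈ Finset.range N := by
    intro s hs
    rw [mem_ZZ] at hs
    have h1 : |s.im - x| ≤ T := by
      rw [abs_le]
      constructor <;> linarith [hs.2.2.2.1, hs.2.2.2.2]
    rw [Finset.mem_range, hN, Nat.lt_succ_iff]
    exact Nat.floor_le_floor h1
  rw [← Finset.sum_fiberwise_of_maps_to hmaps]
  have hj : ∀ j ∈ Finset.range N, ∑ s ∈ (ZZ T).filter (fun s => ⌊|s.im - x|⌋₊ = j),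
      mm s / (1 + |s.im - x|) ≤ 2 * C * Real.log T * ((j + 1 : ℕ) : ℝ)⁻¹ := by
    intro j _
    have h1 : ∑ s ∈ (ZZ T).filter (fun s => ⌊|s.im - x|⌋₊ = j), mm s / (1 + |s.im - x|) ≤
        ∑ s ∈ (ZZ T).filter (fun s => ⌊|s.im - x|⌋₊ = j), mm s * ((j + 1 : ℕ) : ℝ)⁻¹ := by
      refine Finset.sum_le_sum fun s hs => ?_
      rw [Finset.mem_filter] at hs
      have h2 := Nat.floor_le (abs_nonneg (s.im - x))
      rw [hs.2] at h2
      rw [div_eq_mul_inv]
      refine mul_le_mul_of_nonneg_left ?_ (mm_nonneg s)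
      refine inv_anti₀ (by positivity) ?_
      push_cast
      linarith
    refine h1.trans ?_
    rw [← Finset.sum_mul]
    refine mul_le_mul_of_nonneg_right ?_ (by positivity)
    have h2 : ∑ s ∈ (ZZ T).filter (fun s => ⌊|s.im - x|⌋₊ = j), mm s ≤
        fw (ZZ T) mm 2 (x + j + 1 / 2) + fw (ZZ T) mm 2 (x - j - 1 / 2) := by
      unfold fw
      refine le_trans ?_ (Finset.sum_union_inter (s₁ := (ZZ T).filter fun s =>
        |s.im - (x + j + 1 / 2)| ≤ 1 / 2) (s₂ := (ZZ T).filter fun s =>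
        |s.im - (x - j - 1 / 2)| ≤ 1 / 2) (f := mm)).le
      have h3 : 0 ≤ ∑ s ∈ ((ZZ T).filter fun s => |s.im - (x + j + 1 / 2)| ≤ 1 / 2) ∩
          ((ZZ T).filter fun s => |s.im - (x - j - 1 / 2)| ≤ 1 / 2), mm s :=
        Finset.sum_nonneg fun s _ => mm_nonneg s
      have h4 : ∑ s ∈ (ZZ T).filter (fun s => ⌊|s.im - x|⌋₊ = j), mm s ≤
          ∑ s ∈ ((ZZ T).filter fun s => |s.im - (x + j + 1 / 2)| ≤ 1 / 2) ∪
          ((ZZ T).filter fun s => |s.im - (x - j - 1 / 2)| ≤ 1 / 2), mm s := by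
        refine Finset.sum_le_sum_of_subset_of_nonneg ?_ fun s _ _ => mm_nonneg s
        intro s hs
        rw [Finset.mem_filter] at hs
        rw [Finset.mem_union, Finset.mem_filter, Finset.mem_filter]
        have h5 := Nat.floor_le (abs_nonneg (s.im - x))
        have h6 := Nat.lt_floor_add_one |s.im - x|
        rw [hs.2] at h5 h6
        rcases abs_cases (s.im - x) with ⟨h7, _⟩ | ⟨h7, _⟩
        · left
          refine ⟨hs.1, ?_⟩
          rw [h7] at h5 h6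
          rw [abs_le]
          constructor <;> linarith
        · right
          refine ⟨hs.1, ?_⟩
          rw [h7] at h5 h6
          rw [abs_le]
          constructor <;> linarith
      linarith
    have h3 := h T hT 2 (by norm_num) (x + j + 1 / 2)
    have h4 := h T hT 2 (by norm_num) (x - j - 1 / 2)
    linarith
  refine (Finset.sum_le_sum hj).trans ?_
  rw [← Finset.mul_sum]
  have h5 : ∑ j ∈ Finset.range N, ((j + 1 : ℕ) : ℝ)⁻¹ ≤ 1 + Real.log N := by
    have := harmonic_le_one_add_log N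
    unfold harmonic at this
    push_cast at this ⊢
    exact this
  have h6 : Real.log N ≤ 2 * Real.log T := by
    have h7 : (N : ℝ) ≤ T ^ 2 := by
      have := Nat.floor_le (show 0 ≤ T by linarith)
      rw [hN]
      push_cast
      nlinarith
    have h8 := Real.log_le_log (by rw [hN]; positivity) h7
    rw [Real.log_pow] at h8
    exact_mod_cast h8
  calc 2 * C * Real.log T * ∑ j ∈ Finset.range N, ((j + 1 : ℕ) : ℝ)⁻¹
      ≤ 2 * C * Real.log T * (3 * Real.log T) := by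
        refine mul_le_mul_of_nonneg_left (by linarith) (by positivity)
    _ = 6 * C * Real.log T ^ 2 := by ring

lemma ww_prod {a b : ℝ} (ha : 0 ≤ a) (hb : 0 ≤ b) {u : ℝ} (hu : u = -(a + b)) :
    ww u ≤ 4 * (1 / (1 + |a|)) * (1 / (1 + |b|)) := by
  rw [abs_of_nonneg ha, abs_of_nonneg hb, hu]
  unfold ww
  have e : 4 * (1 / (1 + a)) * (1 / (1 + b)) = 4 / ((1 + a) * (1 + b)) := by field_simp
  rw [e]
  apply div_le_div_of_nonneg_left (by norm_num) (by positivity)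
  nlinarith [sq_nonneg (a - b), sq_nonneg (a + b - 1)]

/-- **the cross terms** -/
theorem cross : ∃ C : ℝ, 0 < C ∧ ∀ T T' : ℝ, 10 ≤ T → T ≤ T' → ∀ a : ℝ,
    PP (ZZ T) a ≤ PP (ZZ T') a + C * Real.log T' ^ 4 := by
  classical
  obtain ⟨C, hC, h⟩ := rowsum
  refine ⟨8 * C ^ 2, by positivity, fun T T' hT hTT a => ?_⟩
  have h1 := PP_union (ZZ_mono hTT) a
  have hL := one_lt_log (show 3 ≤ T' by linarith)
  have h2 : ∑ s ∈ ZZ T, ∑ s' ∈ ZZ T' \ ZZ T, mm s * mm s' * ww (s.im - s'.im) ≤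
      4 * ((∑ s ∈ ZZ T, mm s / (1 + |s.im - T|)) *
        ∑ s' ∈ ZZ T' \ ZZ T, mm s' / (1 + |s'.im - T|)) := by
    rw [Finset.sum_mul_sum, Finset.mul_sum]
    refine Finset.sum_le_sum fun s hs => ?_
    rw [Finset.mul_sum]
    refine Finset.sum_le_sum fun s' hs' => ?_
    rw [mem_ZZ] at hs
    rw [Finset.mem_sdiff, mem_ZZ, mem_ZZ] at hs'
    have h3 : s.im ≤ T := hs.2.2.2.2
    have h4 : T < s'.im := by
      by_contra hcon
      push Not at hcon
      exact hs'.2 ⟨hs'.1.1, hs'.1.2.1, hs'.1.2.2.1, hs'.1.2.2.2.1, hcon⟩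
    have h5 := ww_prod (a := T - s.im) (b := s'.im - T) (by linarith) (by linarith)
      (u := s.im - s'.im) (by ring)
    rw [abs_sub_comm T s.im] at h5
    have h6 := mul_nonneg (mm_nonneg s) (mm_nonneg s')
    calc mm s * mm s' * ww (s.im - s'.im)
        ≤ mm s * mm s' * (4 * (1 / (1 + |s.im - T|)) * (1 / (1 + |s'.im - T|))) :=
          mul_le_mul_of_nonneg_left h5 h6
      _ = 4 * (mm s / (1 + |s.im - T|) * (mm s' / (1 + |s'.im - T|))) := by ring
  have hnn : ∀ s : ℂ, 0 ≤ mm s / (1 + |s.im - T|) := fun s =>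
    div_nonneg (mm_nonneg s) (by positivity)
  have h3 : ∑ s ∈ ZZ T, mm s / (1 + |s.im - T|) ≤ C * Real.log T' ^ 2 :=
    (Finset.sum_le_sum_of_subset_of_nonneg (ZZ_mono hTT) fun s _ _ => hnn s).trans
      (h T' (by linarith) T (by linarith) hTT)
  have h4 : ∑ s' ∈ ZZ T' \ ZZ T, mm s' / (1 + |s'.im - T|) ≤ C * Real.log T' ^ 2 :=
    (Finset.sum_le_sum_of_subset_of_nonneg Finset.sdiff_subset fun s _ _ => hnn s).trans
      (h T' (by linarith) T (by linarith) hTT)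
  have h5 : (∑ s ∈ ZZ T, mm s / (1 + |s.im - T|)) * ∑ s' ∈ ZZ T' \ ZZ T, mm s' / (1 + |s'.im - T|) ≤
      (C * Real.log T' ^ 2) * (C * Real.log T' ^ 2) :=
    mul_le_mul h3 h4 (Finset.sum_nonneg fun s _ => hnn s) (by positivity)
  have h6 : (C * Real.log T' ^ 2) * (C * Real.log T' ^ 2) = C ^ 2 * Real.log T' ^ 4 := by ring
  nlinarith

end Pool.Agent.Q85.Mon
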