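import Pool.Agent.Q85.Mon.Lff

/-! # The form factor and the mean squares of `∑ x ^ (iγ)` -/

set_option autoImplicit false

open MeasureTheory Set Filter Topology

namespace Pool.Agent.Q85.Mon

open Pool.Agent.Y749.Rig

/-- the derivative -/
noncomputable def P1 (A : Finset ℂ) (y : ℝ) : ℝ := ∑ s ∈ A, ∑ s' ∈ A, mm s * mm s' *
  (-((s.im - s'.im) * Real.sin (y * (s.im - s'.im))) * ww (s.im - s'.im))

/-- the second derivative -/
noncomputable def P2 (A : Finset ℂ) (y : ℝ) : ℝ := ∑ s ∈ A, ∑ s' ∈ A, mm s * mm s' *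
  (-((s.im - s'.im) ^ 2 * Real.cos (y * (s.im - s'.im))) * ww (s.im - s'.im))

lemma hasDeriv_PP (A : Finset ℂ) (y : ℝ) : HasDerivAt (PP A) (P1 A y) y := by
  unfold PP P1
  refine HasDerivAt.fun_sum fun s _ => HasDerivAt.fun_sum fun s' _ => ?_
  have h := (((hasDerivAt_id' y).mul_const (s.im - s'.im)).cos.mul_const
    (ww (s.im - s'.im))).const_mul (mm s * mm s')
  refine h.congr_deriv ?_
  ring

lemma hasDeriv_P1 (A : Finset ℂ) (y : ℝ) : HasDerivAt (P1 A) (P2 A y) y := by
  unfold P1 P2
  refine HasDerivAt.fun_sum fun s _ => HasDerivAt.fun_sum fun s' _ => ?_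
  have h := (((((hasDerivAt_id' y).mul_const (s.im - s'.im)).sin.const_mul
    (s.im - s'.im)).fun_neg).mul_const (ww (s.im - s'.im))).const_mul (mm s * mm s')
  refine h.congr_deriv ?_
  ring

lemma QQ_ode (A : Finset ℂ) (y : ℝ) : QQ A y = PP A y - P2 A y / 4 := by
  unfold QQ PP P2
  rw [Finset.sum_div, ← Finset.sum_sub_distrib]
  refine Finset.sum_congr rfl fun s _ => ?_
  rw [Finset.sum_div, ← Finset.sum_sub_distrib]
  refine Finset.sum_congr rfl fun s' _ => ?_
  unfold ww
  have : (4 : ℝ) + (s.im - s'.im) ^ 2 ≠ 0 := by positivity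
  field_simp
  ring

lemma PP_cont (A : Finset ℂ) : Continuous (PP A) := by
  unfold PP
  fun_prop

lemma P2_cont (A : Finset ℂ) : Continuous (P2 A) := by
  unfold P2
  fun_prop

lemma landau {f f1 f2 : ℝ → ℝ} (h1 : ∀ x, HasDerivAt f (f1 x) x)
    (h2 : ∀ x, HasDerivAt f1 (f2 x) x) {y s K e c : ℝ} (hs : 0 < s) (hK0 : 0 ≤ K)
    (hK : ∀ x, y - s ≤ x → x ≤ y + s → f2 x ≤ K)
    (hf : ∀ x, y - s ≤ x → x ≤ y + s → |f x - c| ≤ e) : |f1 y| ≤ 2 * e / s + K * s := by
  have c1 : Continuous f := continuous_iff_continuousAt.2 fun x => (h1 x).continuousAt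
  have c2 : Continuous f1 := continuous_iff_continuousAt.2 fun x => (h2 x).continuousAt
  have a0 := abs_le.1 (hf y (by linarith) (by linarith))
  have a1 := abs_le.1 (hf (y + s) (by linarith) le_rfl)
  have a2 := abs_le.1 (hf (y - s) le_rfl (by linarith))
  rw [abs_le]
  constructor
  · obtain ⟨ξ, hξ, e1⟩ := exists_hasDerivAt_eq_slope f f1 (show y < y + s by linarith)
      c1.continuousOn fun x _ => h1 x
    obtain ⟨η, hη, e2⟩ := exists_hasDerivAt_eq_slope f1 f2 hξ.1 c2.continuousOn fun x _ => h2 x
    have k1 := hK η (by linarith [hη.1]) (by linarith [hη.2, hξ.2])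
    have p1 : 0 < ξ - y := by linarith [hξ.1]
    rw [e2, div_le_iff₀ p1] at k1
    have k2 : K * (ξ - y) ≤ K * s := by
      apply mul_le_mul_of_nonneg_left _ hK0
      linarith [hξ.2]
    have e3 : y + s - y = s := by ring
    rw [e3, eq_div_iff hs.ne'] at e1
    have k3 : f1 ξ ≤ f1 y + K * s := by linarith
    have k4 : f1 ξ * s ≤ (f1 y + K * s) * s := mul_le_mul_of_nonneg_right k3 hs.le
    have k5 : -(2 * e) ≤ (f1 y + K * s) * s := by linarith
    have k6 : -(2 * e) / s ≤ f1 y + K * s := by rwa [div_le_iff₀ hs]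
    rw [neg_div] at k6
    linarith
  · obtain ⟨ξ, hξ, e1⟩ := exists_hasDerivAt_eq_slope f f1 (show y - s < y by linarith)
      c1.continuousOn fun x _ => h1 x
    obtain ⟨η, hη, e2⟩ := exists_hasDerivAt_eq_slope f1 f2 hξ.2 c2.continuousOn fun x _ => h2 x
    have k1 := hK η (by linarith [hη.1, hξ.1]) (by linarith [hη.2])
    have p1 : 0 < y - ξ := by linarith [hξ.2]
    rw [e2, div_le_iff₀ p1] at k1
    have k2 : K * (y - ξ) ≤ K * s := by
      apply mul_le_mul_of_nonneg_left _ hK0
      linarith [hξ.1]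
    have e3 : y - (y - s) = s := by ring
    rw [e3, eq_div_iff hs.ne'] at e1
    have k3 : f1 y - K * s ≤ f1 ξ := by linarith
    have k4 : (f1 y - K * s) * s ≤ f1 ξ * s := mul_le_mul_of_nonneg_right k3 hs.le
    have k5 : (f1 y - K * s) * s ≤ 2 * e := by linarith
    have k6 : f1 y - K * s ≤ 2 * e / s := by rwa [le_div_iff₀ hs]
    linarith

/-- from the form factor to the mean squares -/
theorem fwd (A : Finset ℂ) {N y h s c : ℝ} (hN : 0 < N) (hh : 0 < h) (hs : 0 < s) (hs1 : s ≤ 1)
    (hc1 : c ≤ 1)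
    (hf : ∀ x, y - s ≤ x → x ≤ y + h + s → |PP A x / N - c| ≤ s ^ 2) :
    |(∫ x in y..(y + h), QQ A x) / h / N - c| ≤ s * (1 + 5 / h) := by
  have hf' : ∀ x, y - s ≤ x → x ≤ y + h + s → |PP A x - N * c| ≤ N * s ^ 2 := by
    intro x h1 h2
    have h3 := hf x h1 h2
    have e : PP A x - N * c = N * (PP A x / N - c) := by field_simp
    rw [e, abs_mul, abs_of_pos hN]
    exact mul_le_mul_of_nonneg_left h3 hN.le
  have hP2 : ∀ x, y - s ≤ x → x ≤ y + h + s → P2 A x ≤ 8 * N := by
    intro x h1 h2
    have h3 := (abs_le.1 (hf' x h1 h2)).2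
    have h4 := QQ_nonneg A x
    rw [QQ_ode] at h4
    have h5 : N * s ^ 2 ≤ N * 1 := by
      apply mul_le_mul_of_nonneg_left _ hN.le
      nlinarith
    have h6 : N * c ≤ N * 1 := mul_le_mul_of_nonneg_left hc1 hN.le
    linarith
  have d1 : |P1 A y| ≤ 2 * (N * s ^ 2) / s + 8 * N * s :=
    landau (hasDeriv_PP A) (hasDeriv_P1 A) hs (by positivity)
      (fun x h1 h2 => hP2 x h1 (by linarith)) (fun x h1 h2 => hf' x h1 (by linarith))
  have d2 : |P1 A (y + h)| ≤ 2 * (N * s ^ 2) / s + 8 * N * s :=
    landau (hasDeriv_PP A) (hasDeriv_P1 A) hs (by positivity)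
      (fun x h1 h2 => hP2 x (by linarith) (by linarith))
      (fun x h1 h2 => hf' x (by linarith) (by linarith))
  have e1 : 2 * (N * s ^ 2) / s + 8 * N * s = 10 * N * s := by field_simp; ring
  rw [e1] at d1 d2
  have hint : ∫ x in y..(y + h), QQ A x = (∫ x in y..(y + h), PP A x) -
      (P1 A (y + h) - P1 A y) / 4 := by
    have h1 : ∫ x in y..(y + h), P2 A x = P1 A (y + h) - P1 A y :=
      intervalIntegral.integral_eq_sub_of_hasDerivAt (fun x _ => hasDeriv_P1 A x)
        ((P2_cont A).intervalIntegrable _ _)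
    simp_rw [QQ_ode]
    rw [intervalIntegral.integral_sub ((PP_cont A).intervalIntegrable _ _)
      (((P2_cont A).div_const 4).intervalIntegrable _ _), intervalIntegral.integral_div, h1]
  have hmean : |(∫ x in y..(y + h), PP A x) - h * (N * c)| ≤ h * (N * s ^ 2) := by
    have h2 : (∫ x in y..(y + h), PP A x) - h * (N * c) = ∫ x in y..(y + h), (PP A x - N * c) := by
      rw [intervalIntegral.integral_sub ((PP_cont A).intervalIntegrable _ _)
        (continuous_const.intervalIntegrable _ _), intervalIntegral.integral_const, smul_eq_mul]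
      ring
    rw [h2]
    have h3 := intervalIntegral.norm_integral_le_of_norm_le_const (a := y) (b := y + h)
      (f := fun x => PP A x - N * c) (C := N * s ^ 2) fun x hx => by
        rw [uIoc_of_le (by linarith)] at hx
        exact hf' x (by linarith [hx.1]) (by linarith [hx.2])
    rw [Real.norm_eq_abs, add_sub_cancel_left, abs_of_pos hh] at h3
    linarith
  have key : (∫ x in y..(y + h), QQ A x) / h / N - c =
      ((∫ x in y..(y + h), PP A x) - h * (N * c) - (P1 A (y + h) - P1 A y) / 4) / (h * N) := by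
    rw [hint]
    field_simp
    ring
  rw [key, abs_div, abs_of_pos (show 0 < h * N by positivity), div_le_iff₀ (by positivity)]
  have d3 : |(P1 A (y + h) - P1 A y) / 4| ≤ 5 * N * s := by
    rw [abs_div, abs_of_pos (show (0 : ℝ) < 4 by norm_num), div_le_iff₀ (by norm_num)]
    have := abs_sub (P1 A (y + h)) (P1 A y)
    linarith
  have d4 := abs_sub ((∫ x in y..(y + h), PP A x) - h * (N * c)) ((P1 A (y + h) - P1 A y) / 4)
  have e2 : s * (1 + 5 / h) * (h * N) = h * (N * s) + 5 * N * s := by field_simp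
  rw [e2]
  have e3 : h * (N * s ^ 2) ≤ h * (N * s) := by
    have : s ^ 2 ≤ s := by nlinarith
    gcongr
  linarith

lemma exp_one (a : ℝ) : ∫ v : ℝ, Real.exp (-(2 * |v - a|)) = 1 := by
  have := cosw a 0
  simpa [ww] using this

/-- the mean squares and the form factor -/
lemma fub (A : Finset ℂ) (y : ℝ) {h : ℝ} (hh : 0 ≤ h) :
    ∫ v : ℝ, Real.exp (-(2 * |v - y|)) * (∫ r in (0 : ℝ)..h, QQ A (v + r)) =
      ∫ r in (0 : ℝ)..h, PP A (y + r) := by
  have h1 : ∀ v : ℝ, Real.exp (-(2 * |v - y|)) * (∫ r in (0 : ℝ)..h, QQ A (v + r)) =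
      ∫ r in Ioc 0 h, Real.exp (-(2 * |v - y|)) * QQ A (v + r) := by
    intro v
    rw [intervalIntegral.integral_of_le hh, integral_const_mul]
  simp_rw [h1]
  rw [integral_integral_swap, intervalIntegral.integral_of_le hh]
  · refine integral_congr_ae (ae_of_all _ fun r => ?_)
    simp only
    rw [PP_eq]
    have h2 := integral_add_right_eq_self (μ := volume)
      (fun v : ℝ => Real.exp (-(2 * |v - (y + r)|)) * QQ A v) r
    rw [← h2]
    refine integral_congr_ae (ae_of_all _ fun v => ?_)
    simp only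
    congr 3
    rw [show v + r - (y + r) = v - y by ring]
  · have h3 : Integrable (fun z : ℝ × ℝ => Real.exp (-(2 * |z.1 - y|)) * (1 : ℝ))
        (volume.prod (volume.restrict (Ioc 0 h))) :=
      (int_exp2' y).mul_prod (integrable_const (1 : ℝ))
    have h4 := h3.mul_bdd (g := fun z : ℝ × ℝ => QQ A (z.1 + z.2))
      (c := ∑ s ∈ A, ∑ s' ∈ A, mm s * mm s')
      ((QQ_cont A).comp (continuous_fst.add continuous_snd)).aestronglyMeasurable
      (ae_of_all _ fun z => by rw [Real.norm_eq_abs]; exact QQ_bdd A _)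
    refine h4.congr (ae_of_all _ fun z => ?_)
    simp only [Function.uncurry]
    ring

/-- from the mean squares to the form factor -/
theorem bwd (A : Finset ℂ) {N y h e c R B : ℝ} (hN : 0 < N) (hh : 0 < h) (hR : 0 ≤ R)
    (hc0 : 0 ≤ c) (hB : ∀ x, PP A x ≤ B)
    (hf : ∀ v, y - R ≤ v → v ≤ y + R → |(∫ x in v..(v + h), QQ A x) / h / N - c| ≤ e) :
    PP A y ≤ Real.exp (2 * h) * (N * (c + e) + 2 * Real.exp (-(2 * R)) * B) ∧
      N * (c - e) - 2 * Real.exp (-(2 * R)) * (N * c) ≤ Real.exp (2 * h) * PP A y := by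
  obtain ⟨W, hW⟩ : ∃ W : ℝ → ℝ, ∀ v, W v = ∫ r in (0 : ℝ)..h, QQ A (v + r) := ⟨_, fun _ => rfl⟩
  have hWv : ∀ v, W v = ∫ x in v..(v + h), QQ A x := by
    intro v
    rw [hW, intervalIntegral.integral_comp_add_left (fun x => QQ A x), add_zero]
  have hW0 : ∀ v, 0 ≤ W v := fun v => by
    rw [hW]
    exact intervalIntegral.integral_nonneg hh.le fun r _ => QQ_nonneg A _
  have hWb : ∀ v, |W v| ≤ (∑ s ∈ A, ∑ s' ∈ A, mm s * mm s') * h := by
    intro v
    rw [hW]
    have := intervalIntegral.norm_integral_le_of_norm_le_const (a := 0) (b := h)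
      (f := fun r => QQ A (v + r)) (C := ∑ s ∈ A, ∑ s' ∈ A, mm s * mm s') fun r _ => QQ_bdd A _
    rwa [Real.norm_eq_abs, sub_zero, abs_of_pos hh] at this
  have hWc : Continuous W := by
    have h1 : W = fun v => ∫ r in (0 : ℝ)..h, QQ A (v + r) := funext hW
    rw [h1]
    have := QQ_cont A
    apply intervalIntegral.continuous_parametric_intervalIntegral_of_continuous'
    fun_prop
  have hWi : ∀ a : ℝ, Integrable fun v => Real.exp (-(2 * |v - a|)) * W v := fun a =>
    int_cos a hWc hWb
  have hfub : ∀ a : ℝ, ∫ v, Real.exp (-(2 * |v - a|)) * W v = ∫ r in (0 : ℝ)..h, PP A (a + r) := by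
    intro a
    simp_rw [hW]
    exact fub A a hh.le
  have hPPi : ∀ a : ℝ, IntervalIntegrable (fun r => PP A (a + r)) volume 0 h := fun a =>
    ((PP_cont A).comp (continuous_const.add continuous_id)).intervalIntegrable _ _
  have hcst : ∀ b : ℝ, IntervalIntegrable (fun _ : ℝ => b) volume 0 h := fun b =>
    continuous_const.intervalIntegrable _ _
  have hup : ∀ a : ℝ, ∫ r in (0 : ℝ)..h, PP A (a + r) ≤ h * B := by
    intro a
    have h1 := intervalIntegral.integral_mono_on hh.le (hPPi a) (hcst B) fun r _ => hB (a + r)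
    rwa [intervalIntegral.integral_const, smul_eq_mul, sub_zero] at h1
  -- Harnack
  have har1 : h * PP A y ≤ Real.exp (2 * h) * ∫ r in (0 : ℝ)..h, PP A (y + r) := by
    rw [← intervalIntegral.integral_const_mul]
    have h1 := intervalIntegral.integral_mono_on hh.le (hcst (PP A y)) ((hPPi y).const_mul
        (Real.exp (2 * h))) fun r hr => by
        have h2 := harnack A (y + r) (-r)
        rw [add_neg_cancel_right, abs_neg, abs_of_nonneg hr.1] at h2
        refine h2.trans ?_
        apply mul_le_mul_of_nonneg_right _ (PP_nonneg _ _)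
        exact Real.exp_le_exp.2 (by linarith [hr.2])
    rwa [intervalIntegral.integral_const, smul_eq_mul, sub_zero] at h1
  have har2 : ∫ r in (0 : ℝ)..h, PP A (y + r) ≤ Real.exp (2 * h) * (h * PP A y) := by
    have h1 := intervalIntegral.integral_mono_on hh.le (hPPi y)
      (hcst (Real.exp (2 * h) * PP A y)) fun r hr => by
        have h2 := harnack A y r
        rw [abs_of_nonneg hr.1] at h2
        refine h2.trans ?_
        apply mul_le_mul_of_nonneg_right _ (PP_nonneg _ _)
        exact Real.exp_le_exp.2 (by linarith [hr.2])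
    rw [intervalIntegral.integral_const, smul_eq_mul, sub_zero] at h1
    linarith
  have hwin : ∀ v, y - R ≤ v → v ≤ y + R → |W v - h * N * c| ≤ h * N * e := by
    intro v h1 h2
    have h3 := hf v h1 h2
    rw [← hWv] at h3
    have e1 : W v - h * N * c = h * N * (W v / h / N - c) := by field_simp
    rw [e1, abs_mul, abs_of_pos (show 0 < h * N by positivity)]
    exact mul_le_mul_of_nonneg_left h3 (by positivity)
  have htail : ∀ v, (v < y - R ∨ y + R < v) → Real.exp (-(2 * |v - y|)) ≤
      Real.exp (-(2 * R)) * (Real.exp (-(2 * |v - (y + R)|)) + Real.exp (-(2 * |v - (y - R)|))) := by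
    intro v hv
    rcases hv with hv | hv
    · have h1 : Real.exp (-(2 * |v - y|)) = Real.exp (-(2 * R)) *
          Real.exp (-(2 * |v - (y - R)|)) := by
        rw [← Real.exp_add, abs_of_nonpos (by linarith), abs_of_nonpos (by linarith)]
        congr 1
        ring
      rw [h1]
      apply mul_le_mul_of_nonneg_left _ (Real.exp_pos _).le
      linarith [Real.exp_pos (-(2 * |v - (y + R)|))]
    · have h1 : Real.exp (-(2 * |v - y|)) = Real.exp (-(2 * R)) *
          Real.exp (-(2 * |v - (y + R)|)) := by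
        rw [← Real.exp_add, abs_of_nonneg (by linarith), abs_of_nonneg (by linarith)]
        congr 1
        ring
      rw [h1]
      apply mul_le_mul_of_nonneg_left _ (Real.exp_pos _).le
      linarith [Real.exp_pos (-(2 * |v - (y - R)|))]
  have he0 : 0 ≤ h * N * e := (abs_nonneg _).trans (hwin y (by linarith) (by linarith))
  have hhN : 0 < h * N := by positivity
  have hE := Real.exp_pos (-(2 * R))
  have i0 := int_exp2' y
  have i1 := int_exp2' (y + R)
  have i2 := int_exp2' (y - R)
  constructor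
  · have hpt : ∀ v, Real.exp (-(2 * |v - y|)) * W v ≤
        h * N * (c + e) * Real.exp (-(2 * |v - y|)) + (Real.exp (-(2 * R)) *
          (Real.exp (-(2 * |v - (y + R)|)) * W v) + Real.exp (-(2 * R)) *
            (Real.exp (-(2 * |v - (y - R)|)) * W v)) := by
      intro v
      have p0 := Real.exp_pos (-(2 * |v - y|))
      have p1 : 0 ≤ Real.exp (-(2 * R)) * (Real.exp (-(2 * |v - (y + R)|)) * W v) :=
        mul_nonneg hE.le (mul_nonneg (Real.exp_pos _).le (hW0 v))
      have p2 : 0 ≤ Real.exp (-(2 * R)) * (Real.exp (-(2 * |v - (y - R)|)) * W v) :=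
        mul_nonneg hE.le (mul_nonneg (Real.exp_pos _).le (hW0 v))
      by_cases hv : y - R ≤ v ∧ v ≤ y + R
      · have h1 := (abs_le.1 (hwin v hv.1 hv.2)).2
        have h2 : W v ≤ h * N * (c + e) := by linarith
        have h3 := mul_le_mul_of_nonneg_left h2 p0.le
        linarith
      · have hv' : v < y - R ∨ y + R < v := by
          by_contra hcon
          push Not at hcon
          exact hv hcon
        have h1 := mul_le_mul_of_nonneg_right (htail v hv') (hW0 v)
        have h2 : 0 ≤ h * N * (c + e) * Real.exp (-(2 * |v - y|)) := by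
          have : 0 ≤ h * N * (c + e) := by
            have := mul_nonneg hhN.le hc0
            linarith
          positivity
        linarith
    have j1 : Integrable fun v => Real.exp (-(2 * R)) *
          (Real.exp (-(2 * |v - (y + R)|)) * W v) + Real.exp (-(2 * R)) *
            (Real.exp (-(2 * |v - (y - R)|)) * W v) :=
      ((hWi (y + R)).const_mul _).add ((hWi (y - R)).const_mul _)
    have j0 : Integrable fun v => h * N * (c + e) * Real.exp (-(2 * |v - y|)) +
        (Real.exp (-(2 * R)) * (Real.exp (-(2 * |v - (y + R)|)) * W v) + Real.exp (-(2 * R)) *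
            (Real.exp (-(2 * |v - (y - R)|)) * W v)) := (i0.const_mul _).add j1
    have h1 := integral_mono (hWi y) j0 hpt
    rw [integral_add (i0.const_mul _) j1, integral_add ((hWi (y + R)).const_mul _)
      ((hWi (y - R)).const_mul _), integral_const_mul, integral_const_mul, integral_const_mul,
      exp_one, hfub, hfub, hfub] at h1
    have h2 := mul_le_mul_of_nonneg_left (hup (y + R)) hE.le
    have h3 := mul_le_mul_of_nonneg_left (hup (y - R)) hE.le
    have h4 : ∫ r in (0 : ℝ)..h, PP A (y + r) ≤ h * (N * (c + e) + 2 * Real.exp (-(2 * R)) * B) := by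
      linarith
    have h5 : h * PP A y ≤ h * (Real.exp (2 * h) * (N * (c + e) + 2 * Real.exp (-(2 * R)) * B)) := by
      have := mul_le_mul_of_nonneg_left h4 (Real.exp_pos (2 * h)).le
      linarith
    exact le_of_mul_le_mul_left h5 hh
  · have hpt : ∀ v, h * N * (c - e) * Real.exp (-(2 * |v - y|)) - (h * N * c *
        Real.exp (-(2 * R)) * Real.exp (-(2 * |v - (y + R)|)) + h * N * c *
          Real.exp (-(2 * R)) * Real.exp (-(2 * |v - (y - R)|))) ≤
        Real.exp (-(2 * |v - y|)) * W v := by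
      intro v
      have p0 := Real.exp_pos (-(2 * |v - y|))
      have p3 : 0 ≤ h * N * c := mul_nonneg hhN.le hc0
      have p1 : 0 ≤ h * N * c * Real.exp (-(2 * R)) * Real.exp (-(2 * |v - (y + R)|)) := by
        positivity
      have p2 : 0 ≤ h * N * c * Real.exp (-(2 * R)) * Real.exp (-(2 * |v - (y - R)|)) := by
        positivity
      by_cases hv : y - R ≤ v ∧ v ≤ y + R
      · have h1 := (abs_le.1 (hwin v hv.1 hv.2)).1
        have h2 : h * N * (c - e) ≤ W v := by linarith
        have h3 := mul_le_mul_of_nonneg_left h2 p0.le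
        linarith
      · have hv' : v < y - R ∨ y + R < v := by
          by_contra hcon
          push Not at hcon
          exact hv hcon
        have h1 := mul_le_mul_of_nonneg_left (htail v hv') p3
        have h2 : 0 ≤ h * N * e * Real.exp (-(2 * |v - y|)) := by positivity
        have h3 : 0 ≤ Real.exp (-(2 * |v - y|)) * W v := mul_nonneg p0.le (hW0 v)
        linarith
    have j1 : Integrable fun v => h * N * c *
        Real.exp (-(2 * R)) * Real.exp (-(2 * |v - (y + R)|)) + h * N * c *
          Real.exp (-(2 * R)) * Real.exp (-(2 * |v - (y - R)|)) :=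
      (i1.const_mul _).add (i2.const_mul _)
    have j0 : Integrable fun v => h * N * (c - e) * Real.exp (-(2 * |v - y|)) - (h * N * c *
        Real.exp (-(2 * R)) * Real.exp (-(2 * |v - (y + R)|)) + h * N * c *
          Real.exp (-(2 * R)) * Real.exp (-(2 * |v - (y - R)|))) := (i0.const_mul _).sub j1
    have h1 := integral_mono j0 (hWi y) hpt
    rw [integral_sub (i0.const_mul _) j1,
      integral_add (i1.const_mul _) (i2.const_mul _), integral_const_mul, integral_const_mul,
      integral_const_mul, exp_one, exp_one, exp_one, hfub] at h1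
    have h5 : h * (N * (c - e) - 2 * Real.exp (-(2 * R)) * (N * c)) ≤
        h * (Real.exp (2 * h) * PP A y) := by
      linarith
    exact le_of_mul_le_mul_left h5 hh

end Pool.Agent.Q85.Mon
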