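import Pool.Agent.Q85.Mon.Der

/-! # The form factor and the mean squares of `∑ x ^ (iγ)`, the limit -/

set_option autoImplicit false

open MeasureTheory Set Filter Topology

namespace Pool.Agent.Q85.Mon

open Pool.Agent.Y749.Rig

/-- `F (α, T) → min (α, 1)` uniformly -/
def UF : Prop := ∀ a A ε : ℝ, 0 < a → a < A → 0 < ε → ∀ᶠ T : ℝ in atTop, ∀ α : ℝ,
  a ≤ α → α ≤ A → |PP (ZZ T) (α * Real.log T) / nT T - min α 1| ≤ ε

/-- the mean squares over windows of length `h` converge to `min (α, 1)` uniformly -/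
def UW (h : ℝ) : Prop := ∀ a A ε : ℝ, 0 < a → a < A → 0 < ε → ∀ᶠ T : ℝ in atTop, ∀ α : ℝ,
  a ≤ α → α ≤ A →
    |(∫ x in (α * Real.log T)..(α * Real.log T + h), QQ (ZZ T) x) / h / nT T - min α 1| ≤ ε

lemma min_lip (a b : ℝ) : |min a 1 - min b 1| ≤ |a - b| := by
  have := abs_min_sub_min_le_max a 1 b 1
  rwa [sub_self, abs_zero, max_eq_left (abs_nonneg _)] at this

theorem UF_UW (H : UF) {h : ℝ} (hh : 0 < h) : UW h := by
  intro a A ε ha hA hε
  obtain ⟨s, hs⟩ : ∃ s : ℝ, s = min 1 (ε / (1 + 5 / h)) := ⟨_, rfl⟩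
  have hs0 : 0 < s := by rw [hs]; exact lt_min one_pos (by positivity)
  have hs1 : s ≤ 1 := by rw [hs]; exact min_le_left _ _
  have hs2 : s * (1 + 5 / h) ≤ ε := by
    have h1 : s ≤ ε / (1 + 5 / h) := by rw [hs]; exact min_le_right _ _
    rwa [le_div_iff₀ (by positivity)] at h1
  filter_upwards [H (a / 2) (A + 1) (s ^ 2 / 2) (by positivity) (by linarith) (by positivity),
    eventually_ge_atTop 10, Real.tendsto_log_atTop.eventually_ge_atTop ((h + 1) / (a / 2)),
    Real.tendsto_log_atTop.eventually_ge_atTop ((h + 1) / (s ^ 2 / 2)),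
    Real.tendsto_log_atTop.eventually_ge_atTop (h + 1)] with T h1 h2 h3 h4 h5 α hα1 hα2
  have hL := one_lt_log (show 3 ≤ T by linarith)
  have hN := nT_pos h2
  obtain ⟨L, hLL⟩ : ∃ L : ℝ, L = Real.log T := ⟨_, rfl⟩
  rw [← hLL] at h1 h3 h4 h5 hL ⊢
  have hL0 : 0 < L := by linarith
  rw [div_le_iff₀ (by positivity)] at h3 h4
  refine (fwd (ZZ T) hN hh hs0 hs1 (min_le_right _ _) fun x hx1 hx2 => ?_).trans hs2
  have e1 : x / L * L = x := div_mul_cancel₀ _ hL0.ne'
  have hd : |x / L - α| * L ≤ h + 1 := by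
    rw [← abs_of_pos hL0, ← abs_mul, abs_of_pos hL0, sub_mul, e1, abs_le]
    constructor <;> linarith
  have hd1 : |x / L - α| ≤ a / 2 := le_of_mul_le_mul_right (hd.trans (by linarith)) hL0
  have hd2 : |x / L - α| ≤ s ^ 2 / 2 := le_of_mul_le_mul_right (hd.trans (by linarith)) hL0
  have hd3 : |x / L - α| ≤ 1 := le_of_mul_le_mul_right (hd.trans (by linarith)) hL0
  have h6 := h1 (x / L) (by linarith [(abs_le.1 hd1).1]) (by linarith [(abs_le.1 hd3).2])
  rw [e1] at h6
  have h7 := min_lip (x / L) α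
  have h8 : PP (ZZ T) x / nT T - min α 1 = (PP (ZZ T) x / nT T - min (x / L) 1) +
      (min (x / L) 1 - min α 1) := by ring
  rw [h8]
  refine (abs_add_le _ _).trans ?_
  linarith

theorem UW_UF (H : ∀ δ : ℝ, 0 < δ → ∃ h : ℝ, 0 < h ∧ h < δ ∧ UW h) : UF := by
  intro a A ε ha hA hε
  obtain ⟨η, hη⟩ : ∃ η : ℝ, η = min 1 ε := ⟨_, rfl⟩
  have hη0 : 0 < η := by rw [hη]; exact lt_min one_pos hε
  have hη1 : η ≤ 1 := by rw [hη]; exact min_le_left _ _
  have hηε : η ≤ ε := by rw [hη]; exact min_le_right _ _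
  obtain ⟨h, hh, hδ, hW⟩ := H (Real.log (1 + η / 8) / 2) (by
    have := Real.log_pos (show (1 : ℝ) < 1 + η / 8 by linarith)
    positivity)
  have hE : Real.exp (2 * h) ≤ 1 + η / 8 := by
    rw [← Real.le_log_iff_exp_le (by positivity)]
    linarith
  have hE1 : 1 ≤ Real.exp (2 * h) := Real.one_le_exp (by positivity)
  obtain ⟨D, hD, hP⟩ := PP_le
  have hpi := Real.pi_pos
  have hlim : Tendsto (fun T : ℝ => Real.log (Real.log T) / Real.log T) atTop (𝓝 0) :=
    (Real.isLittleO_log_id_atTop.tendsto_div_nhds_zero).comp Real.tendsto_log_atTop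
  filter_upwards [hW (a / 2) (A + 1) (η / 16) (by positivity) (by linarith) (by positivity),
    eventually_ge_atTop 10, hlim.eventually (gt_mem_nhds (show 0 < min (a / 2) (η / 16) from
      lt_min (by positivity) (by positivity))),
    Real.tendsto_log_atTop.eventually_ge_atTop (32 * Real.pi * D / η),
    Real.tendsto_log_atTop.eventually_ge_atTop (16 / η)] with T h1 h2 h3 h4 h5 α hα1 hα2
  have hL := one_lt_log (show 3 ≤ T by linarith)
  have hN := nT_pos h2
  have hPT := hP T h2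
  have hNT : nT T = T * Real.log T / (2 * Real.pi) := rfl
  obtain ⟨N, hNN⟩ : ∃ N : ℝ, N = nT T := ⟨_, rfl⟩
  rw [← hNN] at h1 hN hNT ⊢
  obtain ⟨L, hLL⟩ : ∃ L : ℝ, L = Real.log T := ⟨_, rfl⟩
  rw [← hLL] at h1 h3 h4 h5 hL hPT hNT ⊢
  have hT0 : 0 < T := by linarith
  have hL0 : 0 < L := by linarith
  rw [div_le_iff₀ hη0] at h4 h5
  obtain ⟨R, hR⟩ : ∃ R : ℝ, R = Real.log L := ⟨_, rfl⟩
  rw [← hR] at h3
  have hR0 : 0 ≤ R := by rw [hR]; exact Real.log_nonneg hL.le
  have hRL1 : R / L < a / 2 := h3.trans_le (min_le_left _ _)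
  have hRL2 : R / L < η / 16 := h3.trans_le (min_le_right _ _)
  have hexp : Real.exp (-(2 * R)) = 1 / L ^ 2 := by
    rw [Real.exp_neg, hR, mul_comm, Real.exp_mul, Real.exp_log hL0, one_div]
    norm_cast
  obtain ⟨c, hc⟩ : ∃ c : ℝ, c = min α 1 := ⟨_, rfl⟩
  have hc0 : 0 ≤ c := by rw [hc]; exact le_min (by linarith) zero_le_one
  have hc1 : c ≤ 1 := by rw [hc]; exact min_le_right _ _
  have hb := bwd (ZZ T) (N := N) (y := α * L) (h := h) (e := η / 8) (c := c) (R := R)
    (B := D * (T * L ^ 2)) hN hh hR0 hc0 (fun x => (le_abs_self _).trans (hPT x))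
    (fun v hv1 hv2 => by
      have e1 : v / L * L = v := div_mul_cancel₀ _ hL0.ne'
      have hd : |v / L - α| * L ≤ R := by
        rw [← abs_of_pos hL0, ← abs_mul, abs_of_pos hL0, sub_mul, e1, abs_le]
        constructor <;> linarith
      have hd' : |v / L - α| ≤ R / L := by rwa [le_div_iff₀ hL0]
      have hd3 : η / 16 ≤ 1 := by linarith
      have h6 := h1 (v / L) (by linarith [(abs_le.1 (hd'.trans hRL1.le)).1])
        (by linarith [(abs_le.1 (hd'.trans hRL2.le)).2])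
      rw [e1] at h6
      have h7 := min_lip (v / L) α
      have h8 : (∫ x in v..(v + h), QQ (ZZ T) x) / h / N - c =
          ((∫ x in v..(v + h), QQ (ZZ T) x) / h / N - min (v / L) 1) +
          (min (v / L) 1 - min α 1) := by rw [hc]; ring
      rw [h8]
      refine (abs_add_le _ _).trans ?_
      linarith)
  rw [hexp] at hb
  rw [← hc]
  obtain ⟨P, hPP⟩ : ∃ P : ℝ, P = PP (ZZ T) (α * L) := ⟨_, rfl⟩
  rw [← hPP] at hb ⊢
  have hP0 : 0 ≤ P := by rw [hPP]; exact PP_nonneg _ _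
  obtain ⟨E, hEE⟩ : ∃ E : ℝ, E = Real.exp (2 * h) := ⟨_, rfl⟩
  rw [← hEE] at hb hE hE1
  have htl1 : 2 * (1 / L ^ 2) * (D * (T * L ^ 2)) ≤ N * (η / 8) := by
    have e1 : 2 * (1 / L ^ 2) * (D * (T * L ^ 2)) = 2 * D * T := by field_simp
    rw [e1, hNT, div_mul_eq_mul_div, le_div_iff₀ (by positivity)]
    have := mul_le_mul_of_nonneg_left h4 hT0.le
    linarith
  have htl2 : 2 * (1 / L ^ 2) * (N * c) ≤ N * (η / 8) := by
    have e1 : 2 * (1 / L ^ 2) ≤ η / 8 := by
      rw [mul_one_div, div_le_iff₀ (by positivity)]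
      have : L * 1 ≤ L * L := mul_le_mul_of_nonneg_left hL.le hL0.le
      nlinarith
    calc 2 * (1 / L ^ 2) * (N * c) ≤ η / 8 * (N * 1) := by gcongr
      _ = _ := by ring
  have hup : P ≤ E * (N * (c + η / 4)) := by
    refine hb.1.trans ?_
    apply mul_le_mul_of_nonneg_left _ (by linarith)
    linarith
  have hlo : N * (c - η / 4) ≤ E * P := by
    refine le_trans ?_ hb.2
    linarith
  obtain ⟨X, hX⟩ : ∃ X : ℝ, X = P / N := ⟨_, rfl⟩
  have hXP : P = N * X := by rw [hX]; field_simp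
  have hX0 : 0 ≤ X := by rw [hX]; positivity
  rw [← hX]
  rw [hXP] at hup hlo
  have hup' : X ≤ E * (c + η / 4) := by
    have : N * X ≤ N * (E * (c + η / 4)) := by linarith
    exact le_of_mul_le_mul_left this hN
  have hlo' : c - η / 4 ≤ E * X := by
    have : N * (c - η / 4) ≤ N * (E * X) := by linarith
    exact le_of_mul_le_mul_left this hN
  have hup2 : X ≤ c + η / 2 := by
    have k1 : E * (c + η / 4) ≤ (1 + η / 8) * (c + η / 4) := by
      apply mul_le_mul_of_nonneg_right hE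
      linarith
    have k2 : η * c ≤ η * 1 := mul_le_mul_of_nonneg_left hc1 hη0.le
    have k3 : η * η ≤ η * 1 := mul_le_mul_of_nonneg_left hη1 hη0.le
    nlinarith
  have hlo2 : c - η / 2 ≤ X := by
    have k1 : E * X ≤ (1 + η / 8) * X := mul_le_mul_of_nonneg_right hE hX0
    have k2 : η * X ≤ η * 2 := by
      apply mul_le_mul_of_nonneg_left _ hη0.le
      linarith
    linarith
  rw [abs_le]
  constructor <;> linarith

end Pool.Agent.Q85.Mon
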