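import Pool.Agent.Y749.Rig.FFf

/-! # Harnack inequality for the form factor -/

set_option autoImplicit false

open MeasureTheory Set Filter Topology

namespace Pool.Agent.Q85.Mon

open Pool.Agent.Y749.Rig

lemma int_exp2 : Integrable (fun x : ℝ => Real.exp (-(2 * |x|))) := by
  rw [← integrableOn_univ, ← Iic_union_Ioi (a := (0 : ℝ))]
  refine IntegrableOn.union ?_ ?_
  · have := integrableOn_exp_mul_Iic (a := 2) (by norm_num) 0
    refine this.congr_fun (fun s hs => ?_) measurableSet_Iic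
    simp only
    rw [abs_of_nonpos hs]
    congr 1
    ring
  · have := integrableOn_exp_mul_Ioi (a := -2) (by norm_num) 0
    refine this.congr_fun (fun s hs => ?_) measurableSet_Ioi
    simp only
    rw [abs_of_pos hs]
    congr 1
    ring

lemma int_exp2' (a : ℝ) : Integrable (fun x : ℝ => Real.exp (-(2 * |x - a|))) :=
  int_exp2.comp_sub_right a

lemma int_cos (a : ℝ) {f : ℝ → ℝ} (hf : Continuous f) {c : ℝ} (hc : ∀ x, |f x| ≤ c) :
    Integrable (fun x : ℝ => Real.exp (-(2 * |x - a|)) * f x) :=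
  Integrable.mul_bdd (c := c) (int_exp2' a) hf.aestronglyMeasurable (ae_of_all _ fun x => by
    rw [Real.norm_eq_abs]; exact hc x)

/-- the Fourier transform -/
lemma cosw (a u : ℝ) :
    ∫ v : ℝ, Real.exp (-(2 * |v - a|)) * Real.cos (v * u) = Real.cos (a * u) * ww u := by
  have h1 : ∫ v : ℝ, Real.exp (-(2 * |v - a|)) * Real.cos (v * u) =
      ∫ x : ℝ, Real.exp (-(2 * |x|)) * Real.cos ((x + a) * u) := by
    have := integral_sub_right_eq_self (μ := volume)
      (fun x : ℝ => Real.exp (-(2 * |x|)) * Real.cos ((x + a) * u)) a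
    rw [← this]
    refine integral_congr_ae (ae_of_all _ fun v => ?_)
    simp only
    rw [sub_add_cancel]
  have h2 : ∀ x : ℝ, Real.exp (-(2 * |x|)) * Real.cos ((x + a) * u) =
      Real.cos (a * u) * (Real.exp (-(2 * |x|)) * Real.cos (x * u)) -
        Real.sin (a * u) * (Real.exp (-(2 * |x|)) * Real.sin (x * u)) := by
    intro x
    rw [add_mul, Real.cos_add]
    ring
  have i1 : Integrable (fun x : ℝ => Real.exp (-(2 * |x|)) * Real.cos (x * u)) := by
    have := int_cos 0 (f := fun x => Real.cos (x * u)) (by fun_prop) (c := 1)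
      fun x => Real.abs_cos_le_one _
    simpa using this
  have i2 : Integrable (fun x : ℝ => Real.exp (-(2 * |x|)) * Real.sin (x * u)) := by
    have := int_cos 0 (f := fun x => Real.sin (x * u)) (by fun_prop) (c := 1)
      fun x => Real.abs_sin_le_one _
    simpa using this
  have h3 : ∫ x : ℝ, Real.exp (-(2 * |x|)) * Real.sin (x * u) = 0 := by
    have h4 := integral_neg_eq_self (fun x : ℝ => Real.exp (-(2 * |x|)) * Real.sin (x * u)) volume
    have h5 : ∫ x : ℝ, Real.exp (-(2 * |(-x)|)) * Real.sin (-x * u) =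
        -∫ x : ℝ, Real.exp (-(2 * |x|)) * Real.sin (x * u) := by
      rw [← integral_neg]
      refine integral_congr_ae (ae_of_all _ fun x => ?_)
      simp only
      rw [abs_neg, neg_mul, Real.sin_neg]
      ring
    linarith
  have h6 : ∫ x : ℝ, Real.exp (-(2 * |x|)) * Real.cos (x * u) = ww u := by
    have h7 := integral_comp_abs (f := fun x : ℝ => Real.exp (-(2 * x)) * Real.cos (x * u))
    have h8 : (fun x : ℝ => Real.exp (-(2 * |x|)) * Real.cos (|x| * u)) =
        fun x : ℝ => Real.exp (-(2 * |x|)) * Real.cos (x * u) := by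
      funext x
      rcases abs_choice x with h | h
      · rw [h]
      · rw [h, neg_mul, Real.cos_neg]
    rw [h8] at h7
    rw [h7, ww_int]
  rw [h1]
  simp_rw [h2]
  rw [integral_sub (i1.const_mul _) (i2.const_mul _), integral_const_mul, integral_const_mul, h3,
    h6]
  ring

/-- the quadratic form with the weight -/
noncomputable def PP (A : Finset ℂ) (a : ℝ) : ℝ :=
  ∑ s ∈ A, ∑ s' ∈ A, mm s * mm s' * (Real.cos (a * (s.im - s'.im)) * ww (s.im - s'.im))

/-- the quadratic form -/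
noncomputable def QQ (A : Finset ℂ) (v : ℝ) : ℝ :=
  ∑ s ∈ A, ∑ s' ∈ A, mm s * mm s' * Real.cos (v * (s.im - s'.im))

lemma QQ_nonneg (A : Finset ℂ) (v : ℝ) : 0 ≤ QQ A v := sq_form A mm (fun s : ℂ => s.im) v

lemma PP_nonneg (A : Finset ℂ) (v : ℝ) : 0 ≤ PP A v := pd A mm (fun s : ℂ => s.im) v

lemma QQ_cont (A : Finset ℂ) : Continuous (QQ A) := by
  unfold QQ
  fun_prop

lemma QQ_bdd (A : Finset ℂ) (v : ℝ) : |QQ A v| ≤ ∑ s ∈ A, ∑ s' ∈ A, mm s * mm s' := by
  unfold QQ
  refine (Finset.abs_sum_le_sum_abs _ _).trans (Finset.sum_le_sum fun s _ => ?_)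
  refine (Finset.abs_sum_le_sum_abs _ _).trans (Finset.sum_le_sum fun s' _ => ?_)
  rw [abs_mul, abs_of_nonneg (mul_nonneg (mm_nonneg s) (mm_nonneg s'))]
  exact mul_le_of_le_one_right (mul_nonneg (mm_nonneg s) (mm_nonneg s')) (Real.abs_cos_le_one _)

lemma PP_eq (A : Finset ℂ) (a : ℝ) : PP A a = ∫ v, Real.exp (-(2 * |v - a|)) * QQ A v := by
  unfold PP QQ
  simp_rw [Finset.mul_sum]
  rw [integral_finsetSum _ fun s _ => ?_]
  · refine Finset.sum_congr rfl fun s _ => ?_
    rw [integral_finsetSum _ fun s' _ => ?_]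
    · refine Finset.sum_congr rfl fun s' _ => ?_
      rw [← cosw, ← integral_const_mul]
      refine integral_congr_ae (ae_of_all _ fun v => ?_)
      simp only
      ring
    · exact int_cos a (by fun_prop) (c := mm s * mm s') fun x => by
        rw [abs_mul, abs_of_nonneg (mul_nonneg (mm_nonneg s) (mm_nonneg s'))]
        exact mul_le_of_le_one_right (mul_nonneg (mm_nonneg s) (mm_nonneg s'))
          (Real.abs_cos_le_one _)
  · refine integrable_finsetSum _ fun s' _ => ?_
    exact int_cos a (by fun_prop) (c := mm s * mm s') fun x => by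
      rw [abs_mul, abs_of_nonneg (mul_nonneg (mm_nonneg s) (mm_nonneg s'))]
      exact mul_le_of_le_one_right (mul_nonneg (mm_nonneg s) (mm_nonneg s'))
        (Real.abs_cos_le_one _)

/-- **Harnack's inequality** -/
theorem harnack (A : Finset ℂ) (a h : ℝ) : PP A (a + h) ≤ Real.exp (2 * |h|) * PP A a := by
  rw [PP_eq, PP_eq, ← integral_const_mul]
  refine integral_mono (int_cos _ (QQ_cont A) (QQ_bdd A))
    ((int_cos _ (QQ_cont A) (QQ_bdd A)).const_mul _) fun v => ?_
  simp only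
  rw [← mul_assoc, ← Real.exp_add]
  refine mul_le_mul_of_nonneg_right (Real.exp_le_exp.2 ?_) (QQ_nonneg A v)
  have h1 : |v - a| ≤ |v - (a + h)| + |h| := by
    have : v - a = (v - (a + h)) + h := by ring
    rw [this]
    exact abs_add_le _ _
  linarith

/-- adding zeros: the cross terms -/
theorem PP_union {A B : Finset ℂ} (hAB : A ⊆ B) [DecidableEq ℂ] (a : ℝ) :
    PP A a ≤ PP B a + 2 * ∑ s ∈ A, ∑ s' ∈ B \ A, mm s * mm s' * ww (s.im - s'.im) := by
  obtain ⟨f, hf⟩ : ∃ f : ℂ → ℂ → ℝ, ∀ s s', f s s' =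
    mm s * mm s' * (Real.cos (a * (s.im - s'.im)) * ww (s.im - s'.im)) := ⟨_, fun _ _ => rfl⟩
  have hsymm : ∀ s s', f s s' = f s' s := by
    intro s s'
    rw [hf, hf]
    have e1 : a * (s.im - s'.im) = -(a * (s'.im - s.im)) := by ring
    have e2 : ww (s.im - s'.im) = ww (s'.im - s.im) := by
      unfold ww
      rw [show (s.im - s'.im) ^ 2 = (s'.im - s.im) ^ 2 by ring]
    rw [e1, Real.cos_neg, e2]
    ring
  have hsplit : ∀ g : ℂ → ℝ, ∑ s ∈ B, g s = ∑ s ∈ A, g s + ∑ s ∈ B \ A, g s := by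
    intro g
    rw [← Finset.sum_sdiff hAB]
    ring
  have hB : PP B a = PP A a + PP (B \ A) a + 2 * ∑ s ∈ A, ∑ s' ∈ B \ A, f s s' := by
    unfold PP
    simp_rw [← hf]
    rw [hsplit]
    have e1 : ∑ s ∈ A, ∑ s' ∈ B, f s s' = ∑ s ∈ A, ∑ s' ∈ A, f s s' +
        ∑ s ∈ A, ∑ s' ∈ B \ A, f s s' := by
      rw [← Finset.sum_add_distrib]
      exact Finset.sum_congr rfl fun s _ => hsplit _
    have e2 : ∑ s ∈ B \ A, ∑ s' ∈ B, f s s' = ∑ s ∈ B \ A, ∑ s' ∈ A, f s s' +
        ∑ s ∈ B \ A, ∑ s' ∈ B \ A, f s s' := by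
      rw [← Finset.sum_add_distrib]
      exact Finset.sum_congr rfl fun s _ => hsplit _
    have e3 : ∑ s ∈ B \ A, ∑ s' ∈ A, f s s' = ∑ s ∈ A, ∑ s' ∈ B \ A, f s s' := by
      rw [Finset.sum_comm]
      exact Finset.sum_congr rfl fun s _ => Finset.sum_congr rfl fun s' _ => hsymm _ _
    rw [e1, e2, e3]
    ring
  have hpos := PP_nonneg (B \ A) a
  have hcr : -∑ s ∈ A, ∑ s' ∈ B \ A, mm s * mm s' * ww (s.im - s'.im) ≤
      ∑ s ∈ A, ∑ s' ∈ B \ A, f s s' := by
    rw [← Finset.sum_neg_distrib]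
    refine Finset.sum_le_sum fun s _ => ?_
    rw [← Finset.sum_neg_distrib]
    refine Finset.sum_le_sum fun s' _ => ?_
    rw [hf]
    have h1 := Real.neg_one_le_cos (a * (s.im - s'.im))
    have h2 := ww_pos (s.im - s'.im)
    have h3 := mul_nonneg (mm_nonneg s) (mm_nonneg s')
    have h4 : -ww (s.im - s'.im) ≤ Real.cos (a * (s.im - s'.im)) * ww (s.im - s'.im) := by
      nlinarith
    nlinarith
  linarith

end Pool.Agent.Q85.Mon
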