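import Pool.Agent.Q85.Mon.Shell

/-! # Local form factors -/

set_option autoImplicit false

open MeasureTheory Set Filter Topology

namespace Pool.Agent.Q85.Mon

open Pool.Agent.Y749.Rig

/-- the times at which the window `(t, t + H]` contains `a` and `b` -/
def SW (H a b : ℝ) : Set ℝ := {t | t < a ∧ a ≤ t + H ∧ t < b ∧ b ≤ t + H}

lemma SW_eq (H a b : ℝ) : SW H a b = Ico (max a b - H) (min a b) := by
  ext t
  unfold SW
  simp only [mem_ofPred_eq, mem_Ico, lt_min_iff, sub_le_iff_le_add, max_le_iff]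
  tauto

lemma SW_meas (H a b : ℝ) : MeasurableSet (SW H a b) := by
  rw [SW_eq]
  exact measurableSet_Ico

/-- the measure of the times -/
noncomputable def mu (T H a b : ℝ) : ℝ := (volume.restrict (Ioc 0 (T - H))).real (SW H a b)

lemma mu_nonneg (T H a b : ℝ) : 0 ≤ mu T H a b := measureReal_nonneg

lemma mu_le (T : ℝ) {H : ℝ} (hH : 0 ≤ H) (a b : ℝ) : mu T H a b ≤ H := by
  unfold mu
  rw [measureReal_restrict_apply (SW_meas H a b)]
  have h1 : volume.real (SW H a b ∩ Ioc 0 (T - H)) ≤ volume.real (Ico (max a b - H) (min a b)) := by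
    rw [SW_eq]
    exact measureReal_mono inter_subset_left (by simp)
  refine h1.trans ?_
  rw [Real.volume_real_Ico]
  refine max_le ?_ hH
  have := min_le_max (a := a) (b := b)
  linarith

lemma mu_ge {T H a b : ℝ} (hH : 0 ≤ H) (ha0 : 0 ≤ a) (haT : a ≤ T) :
    H - mu T H a b ≤ min |a - b| H + (H * (if |a - 0| < H then 1 else 0) +
      H * (if |a - T| < H then 1 else 0)) := by
  have h0 := mu_nonneg T H a b
  have h1 : 0 ≤ min |a - b| H := le_min (abs_nonneg _) hH
  by_cases c1 : |a - 0| < H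
  · rw [if_pos c1]
    have : 0 ≤ H * (if |a - T| < H then (1 : ℝ) else 0) := by split_ifs <;> simp [hH]
    linarith
  by_cases c2 : |a - T| < H
  · rw [if_pos c2, if_neg c1]
    linarith
  rw [if_neg c1, if_neg c2]
  rw [sub_zero, abs_of_nonneg ha0] at c1
  rw [abs_sub_comm, abs_of_nonneg (by linarith)] at c2
  push Not at c1 c2
  rcases le_or_gt H |a - b| with h | h
  · rw [min_eq_right h]
    linarith
  rw [min_eq_left h.le]
  have h2 : H - |a - b| ≤ mu T H a b := by
    unfold mu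
    rw [measureReal_restrict_apply (SW_meas H a b)]
    have h3 : volume.real (Ioo (max a b - H) (min a b)) ≤
        volume.real (SW H a b ∩ Ioc 0 (T - H)) := by
      refine measureReal_mono ?_ ?_
      · intro t ht
        rw [SW_eq]
        have e1 := le_max_left a b
        have e2 := min_le_left a b
        refine ⟨⟨ht.1.le, ht.2⟩, ?_, ?_⟩
        · linarith [ht.1]
        · linarith [ht.2]
      · exact ((measure_mono inter_subset_right).trans_lt measure_Ioc_lt_top).ne
    refine le_trans ?_ h3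
    rw [Real.volume_real_Ioo]
    refine le_trans ?_ (le_max_left _ _)
    rcases le_total a b with h4 | h4
    · rw [max_eq_right h4, min_eq_left h4, abs_of_nonpos (by linarith)]
      linarith
    · rw [max_eq_left h4, min_eq_right h4, abs_of_nonneg (by linarith)]
      linarith
  linarith

open Classical in
/-- the zeros in the window `(t, t + H]` -/
noncomputable def WZ (T H t : ℝ) : Finset ℂ := (ZZ T).filter fun s => t < s.im ∧ s.im ≤ t + H

lemma PP_WZ (T H t y : ℝ) : PP (WZ T H t) y = ∑ s ∈ ZZ T, ∑ s' ∈ ZZ T,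
    mm s * mm s' * (Real.cos (y * (s.im - s'.im)) * ww (s.im - s'.im)) *
      (SW H s.im s'.im).indicator (fun _ => (1 : ℝ)) t := by
  classical
  unfold PP WZ
  rw [Finset.sum_filter]
  refine Finset.sum_congr rfl fun s _ => ?_
  by_cases h : t < s.im ∧ s.im ≤ t + H
  · rw [if_pos h, Finset.sum_filter]
    refine Finset.sum_congr rfl fun s' _ => ?_
    by_cases h' : t < s'.im ∧ s'.im ≤ t + H
    · rw [if_pos h', indicator_of_mem, mul_one]
      exact ⟨h.1, h.2, h'.1, h'.2⟩
    · rw [if_neg h', indicator_of_notMem, mul_zero]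
      exact fun hc => h' ⟨hc.2.2.1, hc.2.2.2⟩
  · rw [if_neg h]
    symm
    refine Finset.sum_eq_zero fun s' _ => ?_
    rw [indicator_of_notMem, mul_zero]
    exact fun hc => h ⟨hc.1, hc.2.1⟩

lemma int_PP {T H : ℝ} (hTH : 0 ≤ T - H) (y : ℝ) :
    ∫ t in (0 : ℝ)..(T - H), PP (WZ T H t) y = ∑ s ∈ ZZ T, ∑ s' ∈ ZZ T,
      mm s * mm s' * (Real.cos (y * (s.im - s'.im)) * ww (s.im - s'.im)) *
        mu T H s.im s'.im := by
  simp_rw [PP_WZ]
  rw [intervalIntegral.integral_of_le hTH]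
  have hi : ∀ a b : ℝ, Integrable ((SW H a b).indicator (fun _ => (1 : ℝ)))
      (volume.restrict (Ioc 0 (T - H))) := fun a b =>
    (integrable_const (1 : ℝ)).indicator (SW_meas H a b)
  rw [integral_finsetSum _ fun s _ => integrable_finsetSum _ fun s' _ => (hi _ _).const_mul _]
  refine Finset.sum_congr rfl fun s _ => ?_
  rw [integral_finsetSum _ fun s' _ => (hi _ _).const_mul _]
  refine Finset.sum_congr rfl fun s' _ => ?_
  rw [integral_const_mul]
  congr 1
  unfold mu
  exact integral_indicator_one (SW_meas H _ _)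

/-- **the mean of the local form factors** -/
theorem loc_main : ∃ C : ℝ, 0 < C ∧ ∀ T H : ℝ, 10 ≤ T → 1 ≤ H → H ≤ T / 2 → ∀ y : ℝ,
    |(∫ t in (0 : ℝ)..(T - H), PP (WZ T H t) y) - H * PP (ZZ T) y| ≤
      C * (T * Real.log T ^ 2 * (1 + Real.log H)) + C * (H ^ 2 * Real.log T ^ 2) := by
  obtain ⟨C, hC, h⟩ := rows
  refine ⟨2 * C ^ 2, by positivity, fun T H hT hH1 hH2 y => ?_⟩
  obtain ⟨r1, r2, r3, r4⟩ := h T hT
  have hL := one_lt_log (show 3 ≤ T by linarith)
  have hH0 : 0 ≤ H := by linarith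
  have hlH : 0 ≤ Real.log H := Real.log_nonneg hH1
  rw [int_PP (by linarith)]
  have h1 : (∑ s ∈ ZZ T, ∑ s' ∈ ZZ T, mm s * mm s' *
      (Real.cos (y * (s.im - s'.im)) * ww (s.im - s'.im)) * mu T H s.im s'.im) -
        H * PP (ZZ T) y = -∑ s ∈ ZZ T, ∑ s' ∈ ZZ T, mm s * mm s' *
      (Real.cos (y * (s.im - s'.im)) * ww (s.im - s'.im)) * (H - mu T H s.im s'.im) := by
    unfold PP
    rw [Finset.mul_sum, ← Finset.sum_sub_distrib, ← Finset.sum_neg_distrib]
    refine Finset.sum_congr rfl fun s _ => ?_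
    rw [Finset.mul_sum, ← Finset.sum_sub_distrib, ← Finset.sum_neg_distrib]
    refine Finset.sum_congr rfl fun s' _ => ?_
    ring
  rw [h1, abs_neg]
  refine (Finset.abs_sum_le_sum_abs _ _).trans ?_
  have h2 : ∀ s ∈ ZZ T, |∑ s' ∈ ZZ T, mm s * mm s' *
      (Real.cos (y * (s.im - s'.im)) * ww (s.im - s'.im)) * (H - mu T H s.im s'.im)| ≤
      mm s * (C * Real.log T * (1 + Real.log H)) +
        (mm s * (if |s.im - 0| < H then 1 else 0) + mm s * (if |s.im - T| < H then 1 else 0)) *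
          (H * (C * Real.log T)) := by
    intro s hs
    rw [mem_ZZ] at hs
    refine (Finset.abs_sum_le_sum_abs _ _).trans ?_
    obtain ⟨e, he⟩ : ∃ e : ℝ, e = H * (if |s.im - 0| < H then 1 else 0) +
      H * (if |s.im - T| < H then 1 else 0) := ⟨_, rfl⟩
    have he0 : 0 ≤ e := by
      rw [he]
      split_ifs <;> simp [hH0]
    have h3 : ∀ s' ∈ ZZ T, |mm s * mm s' *
        (Real.cos (y * (s.im - s'.im)) * ww (s.im - s'.im)) * (H - mu T H s.im s'.im)| ≤
        mm s * (mm s' * (ww (s.im - s'.im) * min |s.im - s'.im| H)) +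
          mm s * (e * (mm s' * ww (s.im - s'.im))) := by
      intro s' _
      have a1 := mm_nonneg s
      have a2 := mm_nonneg s'
      have a3 := (ww_pos (s.im - s'.im)).le
      have a4 : 0 ≤ H - mu T H s.im s'.im := by linarith [mu_le T hH0 s.im s'.im]
      have a5 := mu_ge (T := T) (b := s'.im) hH0 hs.2.2.2.1 hs.2.2.2.2
      rw [← he] at a5
      rw [abs_mul, abs_mul, abs_mul, abs_mul, abs_of_nonneg a1, abs_of_nonneg a2,
        abs_of_nonneg a3, abs_of_nonneg a4]
      have a6 := Real.abs_cos_le_one (y * (s.im - s'.im))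
      calc mm s * mm s' * (|Real.cos (y * (s.im - s'.im))| * ww (s.im - s'.im)) *
            (H - mu T H s.im s'.im)
          ≤ mm s * mm s' * (1 * ww (s.im - s'.im)) * (min |s.im - s'.im| H + e) := by
            gcongr
        _ = _ := by ring
    refine (Finset.sum_le_sum h3).trans ?_
    rw [Finset.sum_add_distrib, ← Finset.mul_sum, ← Finset.mul_sum, ← Finset.mul_sum]
    have h4 := mul_le_mul_of_nonneg_left (r2 s.im hs.2.2.2.1 hs.2.2.2.2 H hH1) (mm_nonneg s)
    have h5 := mul_le_mul_of_nonneg_left (r1 s.im hs.2.2.2.1 hs.2.2.2.2)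
      (mul_nonneg (mm_nonneg s) he0)
    have h6 : mm s * e * (C * Real.log T) =
        (mm s * (if |s.im - 0| < H then 1 else 0) + mm s * (if |s.im - T| < H then 1 else 0)) *
          (H * (C * Real.log T)) := by
      rw [he]; ring
    rw [← h6]
    linarith
  refine (Finset.sum_le_sum h2).trans ?_
  rw [Finset.sum_add_distrib, ← Finset.sum_mul, ← Finset.sum_mul, Finset.sum_add_distrib]
  have h3 := r4 0 le_rfl (by linarith) H hH1
  have h4 := r4 T (by linarith) le_rfl H hH1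
  have h5 := mul_le_mul_of_nonneg_right r3
    (show 0 ≤ C * Real.log T * (1 + Real.log H) by positivity)
  have h6 := mul_le_mul_of_nonneg_right (add_le_add h3 h4)
    (show 0 ≤ H * (C * Real.log T) by positivity)
  have h7 : 0 ≤ C ^ 2 * (T * Real.log T ^ 2 * (1 + Real.log H)) := by
    have : 0 < T := by linarith
    positivity
  linarith

lemma PP_le : ∃ C : ℝ, 0 < C ∧ ∀ T : ℝ, 10 ≤ T → ∀ y : ℝ,
    |PP (ZZ T) y| ≤ C * (T * Real.log T ^ 2) := by
  obtain ⟨C, hC, h⟩ := rows
  refine ⟨C ^ 2, by positivity, fun T hT y => ?_⟩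
  obtain ⟨r1, r2, r3, r4⟩ := h T hT
  have hL := one_lt_log (show 3 ≤ T by linarith)
  unfold PP
  refine (Finset.abs_sum_le_sum_abs _ _).trans ?_
  have h1 : ∀ s ∈ ZZ T, |∑ s' ∈ ZZ T, mm s * mm s' * (Real.cos (y * (s.im - s'.im)) *
      ww (s.im - s'.im))| ≤ mm s * (C * Real.log T) := by
    intro s hs
    rw [mem_ZZ] at hs
    refine (Finset.abs_sum_le_sum_abs _ _).trans ?_
    have h2 : ∀ s' ∈ ZZ T, |mm s * mm s' * (Real.cos (y * (s.im - s'.im)) *
        ww (s.im - s'.im))| ≤ mm s * (mm s' * ww (s.im - s'.im)) := by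
      intro s' _
      have a1 := mm_nonneg s
      have a2 := mm_nonneg s'
      have a3 := (ww_pos (s.im - s'.im)).le
      rw [abs_mul, abs_mul, abs_mul, abs_of_nonneg a1, abs_of_nonneg a2, abs_of_nonneg a3]
      have a6 := Real.abs_cos_le_one (y * (s.im - s'.im))
      calc mm s * mm s' * (|Real.cos (y * (s.im - s'.im))| * ww (s.im - s'.im))
          ≤ mm s * mm s' * (1 * ww (s.im - s'.im)) := by gcongr
        _ = _ := by ring
    refine (Finset.sum_le_sum h2).trans ?_
    rw [← Finset.mul_sum]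
    exact mul_le_mul_of_nonneg_left (r1 s.im hs.2.2.2.1 hs.2.2.2.2) (mm_nonneg s)
  refine (Finset.sum_le_sum h1).trans ?_
  rw [← Finset.sum_mul]
  have h2 := mul_le_mul_of_nonneg_right r3 (show 0 ≤ C * Real.log T by positivity)
  linarith

/-- the mean of the local form factors, normalised -/
theorem loc_norm : ∃ C : ℝ, 0 < C ∧ ∀ T H : ℝ, 10 ≤ T → 1 ≤ H → H ≤ T / 2 → ∀ y : ℝ,
    |(∫ t in (0 : ℝ)..(T - H), PP (WZ T H t) y / (H * Real.log T / (2 * Real.pi))) / (T - H) -
      PP (ZZ T) y / nT T| ≤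
      C * (Real.log T * (1 + Real.log H) / H + H * Real.log T / T) := by
  obtain ⟨C, hC, h⟩ := loc_main
  obtain ⟨D, hD, h'⟩ := PP_le
  have hpi := Real.pi_pos
  refine ⟨2 * Real.pi * (2 * C + 2 * C + 2 * D), by positivity, fun T H hT hH1 hH2 y => ?_⟩
  have h1 := h T H hT hH1 hH2 y
  have h2 := h' T hT y
  have hL := one_lt_log (show 3 ≤ T by linarith)
  have hT0 : 0 < T := by linarith
  have hH0 : 0 < H := by linarith
  have hTH : 0 < T - H := by linarith
  have hlH : 0 ≤ Real.log H := Real.log_nonneg hH1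
  rw [intervalIntegral.integral_div]
  obtain ⟨I, hI⟩ : ∃ I : ℝ, I = ∫ t in (0 : ℝ)..(T - H), PP (WZ T H t) y := ⟨_, rfl⟩
  obtain ⟨P, hP⟩ : ∃ P : ℝ, P = PP (ZZ T) y := ⟨_, rfl⟩
  obtain ⟨L, hLL⟩ : ∃ L : ℝ, L = Real.log T := ⟨_, rfl⟩
  obtain ⟨l, hl⟩ : ∃ l : ℝ, l = Real.log H := ⟨_, rfl⟩
  unfold nT
  rw [← hI, ← hP, ← hLL, ← hl]
  rw [← hI, ← hP, ← hLL, ← hl] at h1
  rw [← hP, ← hLL] at h2
  rw [← hLL] at hL
  rw [← hl] at hlH
  have e1 : I / (H * L / (2 * Real.pi)) / (T - H) - P / (T * L / (2 * Real.pi)) =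
      2 * Real.pi / (T * (T - H) * (H * L)) * (T * (I - H * P) + H ^ 2 * P) := by
    field_simp
    ring
  rw [e1, abs_mul, abs_of_nonneg (by positivity)]
  have e2 : |T * (I - H * P) + H ^ 2 * P| ≤ T * (C * (T * L ^ 2 * (1 + l)) + C * (H ^ 2 * L ^ 2)) +
      H ^ 2 * (D * (T * L ^ 2)) := by
    refine (abs_add_le _ _).trans ?_
    rw [abs_mul, abs_mul, abs_of_pos hT0, abs_of_nonneg (by positivity : (0 : ℝ) ≤ H ^ 2)]
    gcongr
  have e3 : 2 * Real.pi / (T * (T - H) * (H * L)) ≤ 2 * Real.pi * (2 / (T * T * (H * L))) := by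
    rw [mul_div_assoc']
    rw [div_le_div_iff₀ (by positivity) (by positivity)]
    have : T * T * (H * L) ≤ 2 * (T * (T - H) * (H * L)) := by
      have h3 : T ≤ 2 * (T - H) := by linarith
      calc T * T * (H * L) ≤ T * (2 * (T - H)) * (H * L) := by gcongr
        _ = _ := by ring
    nlinarith
  calc 2 * Real.pi / (T * (T - H) * (H * L)) * |T * (I - H * P) + H ^ 2 * P| ≤
      2 * Real.pi * (2 / (T * T * (H * L))) * (T * (C * (T * L ^ 2 * (1 + l)) +
        C * (H ^ 2 * L ^ 2)) + H ^ 2 * (D * (T * L ^ 2))) := by gcongr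
    _ = 2 * Real.pi * (2 * C * (L * (1 + l) / H) + (2 * C + 2 * D) * (H * L / T)) := by
        field_simp
        ring
    _ ≤ 2 * Real.pi * ((2 * C + 2 * C + 2 * D) * (L * (1 + l) / H) +
        (2 * C + 2 * C + 2 * D) * (H * L / T)) := by
        gcongr <;> linarith
    _ = _ := by ring

end Pool.Agent.Q85.Mon
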