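import Pool.Agent.Q85.Mon.Cross

/-! # The form factor on a net -/

set_option autoImplicit false

open MeasureTheory Set Filter Topology

namespace Pool.Agent.Q85.Mon

open Pool.Agent.Y749.Rig

/-- the form factor -/
noncomputable def FN (α T : ℝ) : ℝ := PP (ZZ T) (α * Real.log T) / nT T

lemma FN_nonneg {T : ℝ} (hT : 10 ≤ T) (α : ℝ) : 0 ≤ FN α T :=
  div_nonneg (PP_nonneg _ _) (nT_pos hT).le

/-- regularity of the form factor -/
theorem base : ∃ C : ℝ, 0 < C ∧ ∀ T T' : ℝ, 10 ≤ T → T ≤ T' → ∀ y y' : ℝ,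
    T * Real.log T * FN (y / Real.log T) T ≤
      Real.exp (2 * |y - y'|) * (T' * Real.log T' * FN (y' / Real.log T') T') +
        C * Real.log T' ^ 4 := by
  obtain ⟨C, hC, h⟩ := cross
  refine ⟨2 * Real.pi * C, by positivity, fun T T' hT hTT y y' => ?_⟩
  have hpi := Real.pi_pos
  have hval : ∀ T : ℝ, 10 ≤ T → ∀ y : ℝ, T * Real.log T * FN (y / Real.log T) T =
      2 * Real.pi * PP (ZZ T) y := by
    intro T hT y
    have hL := one_lt_log (show 3 ≤ T by linarith)
    have hT0 : 0 < T := by linarith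
    unfold FN nT
    rw [div_mul_cancel₀ _ (by linarith)]
    have : Real.log T ≠ 0 := by linarith
    field_simp
  rw [hval T hT, hval T' (hT.trans hTT)]
  have h1 := h T T' hT hTT y
  have h2 := harnack (ZZ T') y' (y - y')
  rw [show y' + (y - y') = y by ring] at h2
  have h3 : PP (ZZ T) y ≤ Real.exp (2 * |y - y'|) * PP (ZZ T') y' + C * Real.log T' ^ 4 := by
    linarith
  have h4 := mul_le_mul_of_nonneg_left h3 (show 0 ≤ 2 * Real.pi by positivity)
  linarith

/-- the index of `T` -/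
lemma idx {l : ℝ} (hl : 1 < l) {T : ℝ} (hT : 1 ≤ T) : ∃ j : ℕ,
    j * Real.log l ≤ Real.log T ∧ Real.log T < (j + 1) * Real.log l ∧ l ^ j ≤ T ∧
      T ≤ l ^ (j + 1) := by
  have hL : 0 < Real.log l := Real.log_pos hl
  have hlT : 0 ≤ Real.log T := Real.log_nonneg hT
  obtain ⟨j, hj⟩ : ∃ j : ℕ, j = ⌊Real.log T / Real.log l⌋₊ := ⟨_, rfl⟩
  have h1 := Nat.floor_le (show 0 ≤ Real.log T / Real.log l by positivity)
  have h2 := Nat.lt_floor_add_one (Real.log T / Real.log l)
  rw [← hj] at h1 h2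
  rw [le_div_iff₀ hL] at h1
  rw [div_lt_iff₀ hL] at h2
  refine ⟨j, h1, h2, ?_, ?_⟩
  · rw [← Real.log_le_log_iff (by positivity) (by linarith), Real.log_pow]
    exact h1
  · rw [← Real.log_le_log_iff (by linarith) (by positivity), Real.log_pow]
    push_cast
    exact h2.le

lemma small_err (C L : ℝ) {ε : ℝ} (hε : 0 < ε) : ∀ᶠ T : ℝ in atTop,
    C * (Real.log T + L) ^ 4 / (T * Real.log T) ≤ ε := by
  have h1 : Tendsto (fun T : ℝ => (Real.log T) ^ 4 / T) atTop (𝓝 0) := by
    have := (isLittleO_log_rpow_rpow_atTop (s := 1) 4 one_pos).tendsto_div_nhds_zero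
    refine this.congr' ?_
    filter_upwards [eventually_gt_atTop 0] with T hT
    rw [Real.rpow_one]
    norm_cast
  obtain ⟨δ, hδ⟩ : ∃ δ : ℝ, δ = ε / (16 * (|C| + 1)) := ⟨_, rfl⟩
  have hδ0 : 0 < δ := by rw [hδ]; positivity
  filter_upwards [h1.eventually (gt_mem_nhds hδ0), eventually_gt_atTop 0,
    Real.tendsto_log_atTop.eventually_ge_atTop (|L| + 1)] with T h2 h3 h4
  have hl1 : 1 ≤ Real.log T := by
    have := abs_nonneg L
    linarith
  rw [div_le_iff₀ (by positivity)]
  have h5 : |Real.log T + L| ≤ 2 * Real.log T := by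
    rw [abs_le]
    have := abs_le.1 (le_refl |L|)
    constructor <;> linarith
  have h6 : (Real.log T + L) ^ 4 ≤ 16 * Real.log T ^ 4 := by
    have h7 : (Real.log T + L) ^ 4 = |Real.log T + L| ^ 4 := by
      rw [← abs_pow, abs_of_nonneg (by positivity)]
    rw [h7]
    calc |Real.log T + L| ^ 4 ≤ (2 * Real.log T) ^ 4 := by gcongr
      _ = 16 * Real.log T ^ 4 := by ring
  rw [div_lt_iff₀ h3] at h2
  have h7 : C * (Real.log T + L) ^ 4 ≤ (|C| + 1) * (16 * Real.log T ^ 4) := by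
    have h8 : C ≤ |C| + 1 := by linarith [le_abs_self C]
    have h9 : 0 ≤ (Real.log T + L) ^ 4 := by positivity
    calc C * (Real.log T + L) ^ 4 ≤ (|C| + 1) * (Real.log T + L) ^ 4 := by gcongr
      _ ≤ _ := by gcongr
  have h8 : (|C| + 1) * (16 * Real.log T ^ 4) ≤ (|C| + 1) * (16 * (δ * T)) := by
    gcongr
  have h9 : (|C| + 1) * (16 * (δ * T)) = ε * T := by
    rw [hδ]; field_simp
  have h10 : ε * T ≤ ε * (T * Real.log T) := by
    have : 0 < ε * T := by positivity
    nlinarith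
  linarith

/-- upper bounds on the net -/
def NetUpper (l A c : ℝ) : Prop := ∀ ε : ℝ, 0 < ε → ∃ J : ℕ, ∀ j k : ℕ, J ≤ j → j ≤ k →
  (k : ℝ) ≤ A * j → FN (k / j) (l ^ j) ≤ c + ε

/-- lower bounds on the net -/
def NetLower (l A c : ℝ) : Prop := ∀ ε : ℝ, 0 < ε → ∃ J : ℕ, ∀ j k : ℕ, J ≤ j → j ≤ k →
  (k : ℝ) ≤ A * j → c - ε ≤ FN (k / j) (l ^ j)

theorem up {l A A' c : ℝ} (hl : 1 < l) (hA' : 1 ≤ A') (hA : A' < A) (hc : 0 ≤ c)
    (h : NetUpper l A c) {ε : ℝ} (hε : 0 < ε) :
    ∀ᶠ T : ℝ in atTop, ∀ α : ℝ, 1 ≤ α → α ≤ A' → FN α T ≤ l ^ 3 * c + ε := by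
  obtain ⟨C, hC, hb⟩ := base
  obtain ⟨L, hL⟩ : ∃ L : ℝ, L = Real.log l := ⟨_, rfl⟩
  have hL0 : 0 < L := by rw [hL]; exact Real.log_pos hl
  have hl0 : 0 < l := by linarith
  obtain ⟨e', he'⟩ : ∃ e' : ℝ, e' = ε / (8 * l ^ 3) := ⟨_, rfl⟩
  have he'0 : 0 < e' := by rw [he']; positivity
  obtain ⟨J, hJ⟩ := h e' he'0
  filter_upwards [small_err C L (show 0 < ε / 2 by positivity), eventually_ge_atTop 10,
    Real.tendsto_log_atTop.eventually_ge_atTop ((J + 1) * L),
    Real.tendsto_log_atTop.eventually_ge_atTop (L / (A - A')),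
    Real.tendsto_log_atTop.eventually_ge_atTop (4 * l ^ 3 * (c + 1) * L / ε),
    Real.tendsto_log_atTop.eventually_ge_atTop L]
    with T h1 h2 h3 h4 h5 h5' α hα1 hα2
  have hLT := one_lt_log (show 3 ≤ T by linarith)
  obtain ⟨j, j1, j2, j3, j4⟩ := idx hl (show 1 ≤ T by linarith)
  rw [← hL] at j1 j2
  obtain ⟨y, hy⟩ : ∃ y : ℝ, y = α * Real.log T := ⟨_, rfl⟩
  have hyT : Real.log T ≤ y := by rw [hy]; nlinarith
  have hy0 : 0 ≤ y := by linarith
  obtain ⟨k, hk⟩ : ∃ k : ℕ, k = ⌊y / L⌋₊ + 1 := ⟨_, rfl⟩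
  have k1 := Nat.floor_le (show 0 ≤ y / L by positivity)
  have k2 := Nat.lt_floor_add_one (y / L)
  have k3 : ((⌊y / L⌋₊ : ℕ) : ℝ) + 1 = k := by rw [hk]; push_cast; ring
  rw [k3, div_lt_iff₀ hL0] at k2
  have k1' : ((k : ℝ) - 1) * L ≤ y := by
    rw [← le_div_iff₀ hL0]; linarith
  have hjk : j + 1 ≤ k := by
    rw [hk]
    apply Nat.succ_le_succ
    apply Nat.le_floor
    rw [le_div_iff₀ hL0]
    linarith
  have hkA : (k : ℝ) ≤ A * ((j + 1 : ℕ) : ℝ) := by
    have e1 : y ≤ A' * Real.log T := by rw [hy]; gcongr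
    have e2 : y ≤ A' * ((j + 1) * L) := by
      refine e1.trans ?_
      gcongr
    have e3 : (k : ℝ) * L ≤ (A' * (j + 1) + 1) * L := by nlinarith
    have e4 : (k : ℝ) ≤ A' * (j + 1) + 1 := le_of_mul_le_mul_right e3 hL0
    have e5 : 1 ≤ (A - A') * (j + 1) := by
      have e6 : L / (A - A') ≤ (j + 1) * L := by linarith
      rw [div_le_iff₀ (by linarith)] at e6
      nlinarith
    push_cast
    linarith
  have hJj : J ≤ j + 1 := by
    have : ((J + 1 : ℕ) : ℝ) * L < ((j + 1 : ℕ) : ℝ) * L := by push_cast; linarith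
    have := lt_of_mul_lt_mul_right this hL0.le
    have : J + 1 < j + 1 := by exact_mod_cast this
    omega
  have hF := hJ (j + 1) k hJj hjk hkA
  -- comparison
  obtain ⟨T', hT'⟩ : ∃ T' : ℝ, T' = l ^ (j + 1) := ⟨_, rfl⟩
  have hlogT' : Real.log T' = (j + 1) * L := by
    rw [hT', Real.log_pow, ← hL]; push_cast; ring
  rw [← hT'] at hF j4
  have hT'l : T' ≤ l * T := by
    rw [hT', pow_succ, mul_comm]
    gcongr
  have hb1 := hb T T' h2 j4 y (k * L)
  have e1 : y / Real.log T = α := by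
    rw [hy]; field_simp
  have e2 : (k : ℝ) * L / Real.log T' = k / ((j + 1 : ℕ) : ℝ) := by
    rw [hlogT']
    push_cast
    field_simp
  rw [e1, e2] at hb1
  have e3 : Real.exp (2 * |y - k * L|) ≤ l ^ 2 := by
    have e4 : |y - k * L| ≤ L := by
      rw [abs_le]
      constructor <;> nlinarith
    calc Real.exp (2 * |y - k * L|) ≤ Real.exp (2 * L) := by gcongr
      _ = l ^ 2 := by
        rw [hL, mul_comm, Real.exp_mul, Real.exp_log hl0]
        norm_cast
  have hT'0 : 0 < T' := by linarith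
  have hlT'0 : 0 < Real.log T' := by rw [hlogT']; positivity
  have hlT' : Real.log T' ≤ Real.log T + L := by rw [hlogT']; linarith
  have hFn : 0 ≤ FN (k / ((j + 1 : ℕ) : ℝ)) T' := FN_nonneg (by linarith) _
  have hTl : 0 < T * Real.log T := by positivity
  have h6 : T * Real.log T * FN α T ≤ l ^ 2 * (l * T * (Real.log T + L) * (c + e')) +
      C * (Real.log T + L) ^ 4 := by
    refine hb1.trans ?_
    have h7 : T' * Real.log T' * FN (k / ((j + 1 : ℕ) : ℝ)) T' ≤
        l * T * (Real.log T + L) * (c + e') := by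
      have : T' * Real.log T' ≤ l * T * (Real.log T + L) := by gcongr
      exact mul_le_mul this hF hFn (by positivity)
    have h8 : C * Real.log T' ^ 4 ≤ C * (Real.log T + L) ^ 4 := by gcongr
    have h9 : Real.exp (2 * |y - k * L|) * (T' * Real.log T' * FN (k / ((j + 1 : ℕ) : ℝ)) T') ≤
        l ^ 2 * (l * T * (Real.log T + L) * (c + e')) :=
      mul_le_mul e3 h7 (by positivity) (by positivity)
    linarith
  rw [div_le_iff₀ hTl] at h1
  have h7 : l ^ 2 * (l * T * (Real.log T + L) * (c + e')) =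
      T * (l ^ 3 * (c + e')) * (Real.log T + L) := by ring
  have h8 : l ^ 3 * e' = ε / 8 := by rw [he']; field_simp
  have h9 : l ^ 3 * (c + 1) * L * 4 ≤ ε * Real.log T := by
    rw [div_le_iff₀ hε] at h5
    linarith
  have h10 : T * Real.log T * FN α T ≤ T * Real.log T * (l ^ 3 * c + ε) := by
    refine h6.trans ?_
    rw [h7]
    have e5 : T * (l ^ 3 * (c + e')) * (Real.log T + L) =
        T * (l ^ 3 * c * Real.log T + ε / 8 * Real.log T + l ^ 3 * c * L + ε / 8 * L) := by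
      rw [← h8]; ring
    rw [e5]
    have e6 : l ^ 3 * c * L ≤ ε / 4 * Real.log T := by
      have : 0 ≤ l ^ 3 * L := by positivity
      nlinarith
    have e7 : ε / 8 * L ≤ ε / 8 * Real.log T := by gcongr
    have e8 : T * (l ^ 3 * c * Real.log T + ε / 8 * Real.log T + l ^ 3 * c * L + ε / 8 * L) ≤
        T * (l ^ 3 * c * Real.log T + ε / 2 * Real.log T) := by
      apply mul_le_mul_of_nonneg_left _ (by linarith)
      linarith
    linarith
  exact le_of_mul_le_mul_left h10 hTl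

theorem low {l A A' c : ℝ} (hl : 1 < l) (hA' : 1 ≤ A') (hA : A' < A) (hc : 0 ≤ c)
    (h : NetLower l A c) {ε : ℝ} (hε : 0 < ε) :
    ∀ᶠ T : ℝ in atTop, ∀ α : ℝ, 1 ≤ α → α ≤ A' → c / l ^ 3 - ε ≤ FN α T := by
  obtain ⟨C, hC, hb⟩ := base
  obtain ⟨L, hL⟩ : ∃ L : ℝ, L = Real.log l := ⟨_, rfl⟩
  have hL0 : 0 < L := by rw [hL]; exact Real.log_pos hl
  have hl0 : 0 < l := by linarith
  obtain ⟨J, hJ⟩ := h (ε / 8) (by positivity)
  filter_upwards [small_err C L (show 0 < ε / 2 by positivity), eventually_ge_atTop (10 * l),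
    Real.tendsto_log_atTop.eventually_ge_atTop ((J + 1) * L),
    Real.tendsto_log_atTop.eventually_ge_atTop (A' * L / (A - A') + L),
    Real.tendsto_log_atTop.eventually_ge_atTop (4 * (c + 1) * L / ε),
    Real.tendsto_log_atTop.eventually_ge_atTop L]
    with T h1 h2 h3 h4 h5 h5' α hα1 hα2
  have hT10 : 10 ≤ T := by nlinarith
  have hLT := one_lt_log (show 3 ≤ T by linarith)
  obtain ⟨j, j1, j2, j3, j4⟩ := idx hl (show 1 ≤ T by linarith)
  rw [← hL] at j1 j2
  obtain ⟨y, hy⟩ : ∃ y : ℝ, y = α * Real.log T := ⟨_, rfl⟩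
  have hyT : Real.log T ≤ y := by rw [hy]; nlinarith
  have hy0 : 0 ≤ y := by linarith
  obtain ⟨k, hk⟩ : ∃ k : ℕ, k = ⌊y / L⌋₊ := ⟨_, rfl⟩
  have k1 := Nat.floor_le (show 0 ≤ y / L by positivity)
  have k2 := Nat.lt_floor_add_one (y / L)
  rw [← hk] at k1 k2
  rw [div_lt_iff₀ hL0] at k2
  rw [le_div_iff₀ hL0] at k1
  have hjk : j ≤ k := by
    rw [hk]
    apply Nat.le_floor
    rw [le_div_iff₀ hL0]
    linarith
  have hkA : (k : ℝ) ≤ A * (j : ℝ) := by
    have e1 : y ≤ A' * Real.log T := by rw [hy]; gcongr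
    have e2 : y ≤ A' * ((j + 1) * L) := by
      refine e1.trans ?_
      gcongr
    have e3 : (k : ℝ) * L ≤ (A' * (j + 1)) * L := by nlinarith
    have e4 : (k : ℝ) ≤ A' * (j + 1) := le_of_mul_le_mul_right e3 hL0
    have e5 : A' ≤ (A - A') * j := by
      have e6 : A' * L / (A - A') ≤ j * L := by linarith
      rw [div_le_iff₀ (by linarith)] at e6
      nlinarith
    linarith
  have hJj : J ≤ j := by
    have : ((J + 1 : ℕ) : ℝ) * L < ((j + 1 : ℕ) : ℝ) * L := by push_cast; linarith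
    have := lt_of_mul_lt_mul_right this hL0.le
    have : J + 1 < j + 1 := by exact_mod_cast this
    omega
  have hF := hJ j k hJj hjk hkA
  obtain ⟨T', hT'⟩ : ∃ T' : ℝ, T' = l ^ j := ⟨_, rfl⟩
  have hlogT' : Real.log T' = j * L := by
    rw [hT', Real.log_pow, ← hL]
  rw [← hT'] at hF j3
  have hT'l : T ≤ l * T' := by
    rw [hT']
    rw [pow_succ, mul_comm] at j4
    exact j4
  have hT'10 : 10 ≤ T' := by
    have : 10 * l ≤ l * T' := h2.trans hT'l
    nlinarith
  have hb1 := hb T' T hT'10 j3 (k * L) y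
  have hj0 : (0 : ℝ) < j := by
    have : Real.log T' = j * L := hlogT'
    have h0 := one_lt_log (show 3 ≤ T' by linarith)
    by_contra hcon
    push Not at hcon
    nlinarith
  have e1 : y / Real.log T = α := by
    rw [hy]; field_simp
  have e2 : (k : ℝ) * L / Real.log T' = k / (j : ℝ) := by
    rw [hlogT']
    field_simp
  rw [e1, e2] at hb1
  have e3 : Real.exp (2 * |k * L - y|) ≤ l ^ 2 := by
    have e4 : |k * L - y| ≤ L := by
      rw [abs_le]
      constructor <;> nlinarith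
    calc Real.exp (2 * |k * L - y|) ≤ Real.exp (2 * L) := by gcongr
      _ = l ^ 2 := by
        rw [hL, mul_comm, Real.exp_mul, Real.exp_log hl0]
        norm_cast
  have hT'0 : 0 < T' := by linarith
  have hlT' : Real.log T - L ≤ Real.log T' := by rw [hlogT']; linarith
  have hlT'' : Real.log T' ≤ Real.log T := Real.log_le_log hT'0 j3
  have hFn : 0 ≤ FN α T := FN_nonneg (by linarith) _
  have hTl : 0 < T * Real.log T := by positivity
  have hlT'0 : 0 ≤ Real.log T' := Real.log_nonneg (by linarith)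
  have h6 : T' * Real.log T' * (c - ε / 8) ≤ l ^ 2 * (T * Real.log T * FN α T) +
      C * Real.log T ^ 4 := by
    have h7 : T' * Real.log T' * (c - ε / 8) ≤ T' * Real.log T' * FN (k / (j : ℝ)) T' := by
      gcongr
    have h9 : Real.exp (2 * |k * L - y|) * (T * Real.log T * FN α T) ≤
        l ^ 2 * (T * Real.log T * FN α T) :=
      mul_le_mul_of_nonneg_right e3 (by positivity)
    linarith
  have h7 : T / l * (Real.log T - L) * c ≤ T' * Real.log T' * c := by
    have h8 : T / l ≤ T' := by rw [div_le_iff₀ hl0]; linarith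
    have h9 : 0 ≤ Real.log T - L := by linarith
    gcongr
  have h8 : T' * Real.log T' * (ε / 8) ≤ T * Real.log T * (ε / 8) := by gcongr
  have h9 : C * Real.log T ^ 4 ≤ ε / 2 * (T * Real.log T) := by
    rw [div_le_iff₀ hTl] at h1
    refine le_trans ?_ h1
    gcongr
    linarith
  have h10 : (c + 1) * L * 4 ≤ ε * Real.log T := by
    rw [div_le_iff₀ hε] at h5
    linarith
  have h11 : T / l * (Real.log T - L) * c - T * Real.log T * (ε / 8) ≤
      l ^ 2 * (T * Real.log T * FN α T) + ε / 2 * (T * Real.log T) := by linarith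
  have h12 : T / l * (Real.log T * c) - T * Real.log T * (7 / 8 * ε) ≤
      l ^ 2 * (T * Real.log T * FN α T) := by
    have h13 : T / l * (L * c) ≤ T * Real.log T * (ε / 4) := by
      have h14 : T / l ≤ T := div_le_self (by linarith) hl.le
      have h15 : L * c ≤ Real.log T * (ε / 4) := by nlinarith
      calc T / l * (L * c) ≤ T * (Real.log T * (ε / 4)) :=
            mul_le_mul h14 h15 (by positivity) (by linarith)
        _ = _ := by ring
    have h14 : T / l * (Real.log T - L) * c = T / l * (Real.log T * c) - T / l * (L * c) := by ring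
    linarith
  have h13 : T * Real.log T * (c / l ^ 3 - ε) ≤ T * Real.log T * FN α T := by
    have h14 : T * Real.log T * (c / l ^ 3 - ε) * l ^ 2 =
        T / l * (Real.log T * c) - T * Real.log T * ε * l ^ 2 := by
      field_simp
    have h15 : T * Real.log T * (7 / 8 * ε) ≤ T * Real.log T * ε * l ^ 2 := by
      have h16 : 1 ≤ l ^ 2 := by nlinarith
      have h17 : 0 < T * Real.log T * ε := by positivity
      nlinarith
    have h16 : T * Real.log T * (c / l ^ 3 - ε) * l ^ 2 ≤ T * Real.log T * FN α T * l ^ 2 := by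
      rw [h14]
      linarith
    exact le_of_mul_le_mul_right h16 (by positivity)
  exact le_of_mul_le_mul_left h13 hTl

end Pool.Agent.Q85.Mon
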