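import Pool.Agent.Q85.Mon.Har

/-! # Sums over the zeros in shells -/

set_option autoImplicit false

open MeasureTheory Set Filter Topology

namespace Pool.Agent.Q85.Mon

open Pool.Agent.Y749.Rig

/-- sums over shells -/
theorem shell : ∃ C : ℝ, 0 < C ∧ ∀ T : ℝ, 10 ≤ T → ∀ x : ℝ, 0 ≤ x → x ≤ T → ∀ φ : ℕ → ℝ,
    (∀ j, 0 ≤ φ j) → ∑ s ∈ ZZ T, mm s * φ ⌊|s.im - x|⌋₊ ≤
      C * Real.log T * ∑ j ∈ Finset.range (⌊T⌋₊ + 1), φ j := by
  classical
  obtain ⟨C, hC, h⟩ := sup_fw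
  refine ⟨2 * C, by positivity, fun T hT x hx0 hxT φ hφ => ?_⟩
  have hL := one_lt_log (show 3 ≤ T by linarith)
  obtain ⟨N, hN⟩ : ∃ N : ℕ, N = ⌊T⌋₊ + 1 := ⟨_, rfl⟩
  rw [← hN]
  have hmaps : ∀ s ∈ ZZ T, ⌊|s.im - x|⌋₊ ∈ Finset.range N := by
    intro s hs
    rw [mem_ZZ] at hs
    have h1 : |s.im - x| ≤ T := by
      rw [abs_le]
      constructor <;> linarith [hs.2.2.2.1, hs.2.2.2.2]
    rw [Finset.mem_range, hN, Nat.lt_succ_iff]
    exact Nat.floor_le_floor h1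
  rw [← Finset.sum_fiberwise_of_maps_to hmaps, Finset.mul_sum]
  refine Finset.sum_le_sum fun j _ => ?_
  have h1 : ∑ s ∈ (ZZ T).filter (fun s => ⌊|s.im - x|⌋₊ = j), mm s * φ ⌊|s.im - x|⌋₊ =
      (∑ s ∈ (ZZ T).filter (fun s => ⌊|s.im - x|⌋₊ = j), mm s) * φ j := by
    rw [Finset.sum_mul]
    refine Finset.sum_congr rfl fun s hs => ?_
    rw [Finset.mem_filter] at hs
    rw [hs.2]
  rw [h1]
  refine mul_le_mul_of_nonneg_right ?_ (hφ j)
  have h2 : ∑ s ∈ (ZZ T).filter (fun s => ⌊|s.im - x|⌋₊ = j), mm s ≤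
      fw (ZZ T) mm 2 (x + j + 1 / 2) + fw (ZZ T) mm 2 (x - j - 1 / 2) := by
    unfold fw
    refine le_trans ?_ (Finset.sum_union_inter (s₁ := (ZZ T).filter fun s =>
      |s.im - (x + j + 1 / 2)| ≤ 1 / 2) (s₂ := (ZZ T).filter fun s =>
      |s.im - (x - j - 1 / 2)| ≤ 1 / 2) (f := mm)).le
    have h3 : 0 ≤ ∑ s ∈ ((ZZ T).filter fun s => |s.im - (x + j + 1 / 2)| ≤ 1 / 2) ∩
        ((ZZ T).filter fun s => |s.im - (x - j - 1 / 2)| ≤ 1 / 2), mm s :=
      Finset.sum_nonneg fun s _ => mm_nonneg s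
    have h4 : ∑ s ∈ (ZZ T).filter (fun s => ⌊|s.im - x|⌋₊ = j), mm s ≤
        ∑ s ∈ ((ZZ T).filter fun s => |s.im - (x + j + 1 / 2)| ≤ 1 / 2) ∪
        ((ZZ T).filter fun s => |s.im - (x - j - 1 / 2)| ≤ 1 / 2), mm s := by
      refine Finset.sum_le_sum_of_subset_of_nonneg ?_ fun s _ _ => mm_nonneg s
      intro s hs
      rw [Finset.mem_filter] at hs
      rw [Finset.mem_union, Finset.mem_filter, Finset.mem_filter]
      have h5 := Nat.floor_le (abs_nonneg (s.im - x))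
      have h6 := Nat.lt_floor_add_one |s.im - x|
      rw [hs.2] at h5 h6
      rcases abs_cases (s.im - x) with ⟨h7, _⟩ | ⟨h7, _⟩
      · left
        refine ⟨hs.1, ?_⟩
        rw [h7] at h5 h6
        rw [abs_le]
        constructor <;> linarith
      · right
        refine ⟨hs.1, ?_⟩
        rw [h7] at h5 h6
        rw [abs_le]
        constructor <;> linarith
    linarith
  have h3 := h T hT 2 (by norm_num) (x + j + 1 / 2)
  have h4 := h T hT 2 (by norm_num) (x - j - 1 / 2)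
  linarith

lemma ww_floor {u : ℝ} {j : ℕ} (h : (j : ℝ) ≤ |u|) : ww u ≤ 8 * (1 / (j + 1) - 1 / (j + 2)) := by
  have e : 8 * (1 / ((j : ℝ) + 1) - 1 / (j + 2)) = 8 / ((j + 1) * (j + 2)) := by
    have h1 : (j : ℝ) + 1 ≠ 0 := by positivity
    have h2 : (j : ℝ) + 2 ≠ 0 := by positivity
    field_simp
    ring
  rw [e]
  unfold ww
  rw [div_le_div_iff₀ (by positivity) (by positivity)]
  have h1 : (j : ℝ) ^ 2 ≤ u ^ 2 := by
    rw [← sq_abs u]
    have : (0 : ℝ) ≤ j := Nat.cast_nonneg _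
    gcongr
  nlinarith [sq_nonneg ((j : ℝ) - 3 / 2)]

lemma tele (N : ℕ) : ∑ j ∈ Finset.range N, 8 * (1 / ((j : ℝ) + 1) - 1 / (j + 2)) ≤ 8 := by
  have h : ∀ N : ℕ, ∑ j ∈ Finset.range N, 8 * (1 / ((j : ℝ) + 1) - 1 / (j + 2)) =
      8 * (1 - 1 / (N + 1)) := by
    intro N
    induction N with
    | zero => simp
    | succ n ih =>
      rw [Finset.sum_range_succ, ih]
      push_cast
      have h1 : (n : ℝ) + 1 ≠ 0 := by positivity
      have h2 : (n : ℝ) + 2 ≠ 0 := by positivity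
      have h3 : (n : ℝ) + 1 + 1 ≠ 0 := by positivity
      field_simp
      ring
  rw [h]
  have : (0 : ℝ) ≤ 1 / (N + 1) := by positivity
  linarith

lemma tele2 {H : ℝ} (hH : 1 ≤ H) (N : ℕ) :
    ∑ j ∈ Finset.range N, 8 * (1 / ((j : ℝ) + 1) - 1 / (j + 2)) * min ((j : ℝ) + 1) H ≤
      24 * (1 + Real.log H) := by
  obtain ⟨K, hK⟩ : ∃ K : ℕ, K = ⌈H⌉₊ := ⟨_, rfl⟩
  have hK1 : H ≤ K := by rw [hK]; exact Nat.le_ceil _
  have hK2 : (K : ℝ) < H + 1 := by rw [hK]; exact Nat.ceil_lt_add_one (by linarith)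
  have hlH : 0 ≤ Real.log H := Real.log_nonneg hH
  have h1 : ∀ j ∈ Finset.range N, 8 * (1 / ((j : ℝ) + 1) - 1 / (j + 2)) * min ((j : ℝ) + 1) H ≤
      8 * (if j < K then ((j + 1 : ℕ) : ℝ)⁻¹ else 0) +
        8 * (if j < K then 0 else H * (1 / ((j : ℝ) + 1) - 1 / (j + 2))) := by
    intro j _
    have e : 1 / ((j : ℝ) + 1) - 1 / (j + 2) = 1 / ((j + 1) * (j + 2)) := by
      have h1 : (j : ℝ) + 1 ≠ 0 := by positivity
      have h2 : (j : ℝ) + 2 ≠ 0 := by positivity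
      field_simp
      ring
    have e0 : 0 ≤ 1 / (((j : ℝ) + 1) * (j + 2)) := by positivity
    split_ifs with hj
    · rw [e]
      have h2 := min_le_left ((j : ℝ) + 1) H
      have h3 : 1 / (((j : ℝ) + 1) * (j + 2)) * ((j : ℝ) + 1) = 1 / (j + 2) := by
        field_simp
      have h4 : 1 / (((j : ℝ) + 1) * (j + 2)) * min ((j : ℝ) + 1) H ≤ 1 / (j + 2) := by
        rw [← h3]
        exact mul_le_mul_of_nonneg_left h2 e0
      have h5 : 1 / ((j : ℝ) + 2) ≤ ((j + 1 : ℕ) : ℝ)⁻¹ := by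
        rw [one_div]
        apply inv_anti₀ (by positivity)
        push_cast
        linarith
      linarith
    · rw [e]
      have h2 := min_le_right ((j : ℝ) + 1) H
      have h4 : 1 / (((j : ℝ) + 1) * (j + 2)) * min ((j : ℝ) + 1) H ≤
          1 / (((j : ℝ) + 1) * (j + 2)) * H :=
        mul_le_mul_of_nonneg_left h2 e0
      linarith
  refine (Finset.sum_le_sum h1).trans ?_
  rw [Finset.sum_add_distrib, ← Finset.mul_sum, ← Finset.mul_sum]
  have h2 : ∑ j ∈ Finset.range N, (if j < K then ((j + 1 : ℕ) : ℝ)⁻¹ else 0) ≤ 1 + Real.log K := by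
    rw [← Finset.sum_filter]
    have h3 : ∑ j ∈ (Finset.range N).filter (fun j => j < K), ((j + 1 : ℕ) : ℝ)⁻¹ ≤
        ∑ j ∈ Finset.range K, ((j + 1 : ℕ) : ℝ)⁻¹ := by
      refine Finset.sum_le_sum_of_subset_of_nonneg ?_ fun j _ _ => by positivity
      intro j hj
      rw [Finset.mem_filter] at hj
      exact Finset.mem_range.2 hj.2
    refine h3.trans ?_
    have := harmonic_le_one_add_log K
    unfold harmonic at this
    push_cast at this ⊢
    exact this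
  have h3 : ∀ N : ℕ, ∑ j ∈ Finset.range N,
      (if j < K then 0 else H * (1 / ((j : ℝ) + 1) - 1 / (j + 2))) =
        if N ≤ K then 0 else H * (1 / ((K : ℝ) + 1) - 1 / (N + 1)) := by
    intro N
    induction N with
    | zero => simp
    | succ n ih =>
      rw [Finset.sum_range_succ, ih]
      push_cast
      have e3 : (n : ℝ) + 1 + 1 = n + 2 := by ring
      rw [e3]
      rcases lt_trichotomy n K with h | h | h
      · rw [if_pos h.le, if_pos h, if_pos (by omega)]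
        simp
      · rw [if_pos h.le, if_neg (by omega), if_neg (by omega), h]
        ring
      · rw [if_neg (by omega), if_neg (by omega), if_neg (by omega)]
        ring
  rw [h3]
  have h4 : (if N ≤ K then 0 else H * (1 / ((K : ℝ) + 1) - 1 / (N + 1))) ≤ 1 := by
    split_ifs
    · exact zero_le_one
    · have h5 : H * (1 / ((K : ℝ) + 1)) ≤ 1 := by
        rw [mul_one_div, div_le_one (by positivity)]
        linarith
      have h6 : 0 ≤ H * (1 / ((N : ℝ) + 1)) := by positivity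
      linarith
  have h5 : Real.log K ≤ 1 + Real.log H := by
    have h6 : Real.log K ≤ Real.log (2 * H) := Real.log_le_log (by linarith) (by linarith)
    rw [Real.log_mul (by norm_num) (by linarith)] at h6
    have := Real.log_two_lt_d9
    linarith
  linarith

/-- the rows -/
theorem rows : ∃ C : ℝ, 0 < C ∧ ∀ T : ℝ, 10 ≤ T →
    (∀ x : ℝ, 0 ≤ x → x ≤ T → ∑ s ∈ ZZ T, mm s * ww (x - s.im) ≤ C * Real.log T) ∧
    (∀ x : ℝ, 0 ≤ x → x ≤ T → ∀ H : ℝ, 1 ≤ H →
      ∑ s ∈ ZZ T, mm s * (ww (x - s.im) * min |x - s.im| H) ≤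
        C * Real.log T * (1 + Real.log H)) ∧
    (∑ s ∈ ZZ T, mm s ≤ C * (T * Real.log T)) ∧
    (∀ x : ℝ, 0 ≤ x → x ≤ T → ∀ H : ℝ, 1 ≤ H →
      ∑ s ∈ ZZ T, mm s * (if |s.im - x| < H then 1 else 0) ≤ C * Real.log T * H) := by
  classical
  obtain ⟨C, hC, h⟩ := shell
  refine ⟨24 * C, by positivity, fun T hT => ?_⟩
  have hL := one_lt_log (show 3 ≤ T by linarith)
  have hCL : 0 < C * Real.log T := by positivity
  have hpos : ∀ j : ℕ, 0 ≤ 8 * (1 / ((j : ℝ) + 1) - 1 / (j + 2)) := by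
    intro j
    have := ww_floor (u := (j : ℝ)) (j := j) (le_abs_self _)
    exact (ww_pos _).le.trans this
  have hw : ∀ x : ℝ, ∀ s : ℂ, ww (x - s.im) ≤
      8 * (1 / ((⌊|s.im - x|⌋₊ : ℝ) + 1) - 1 / (⌊|s.im - x|⌋₊ + 2)) := by
    intro x s
    apply ww_floor
    rw [abs_sub_comm x]
    exact Nat.floor_le (abs_nonneg _)
  refine ⟨fun x hx0 hxT => ?_, fun x hx0 hxT H hH => ?_, ?_, fun x hx0 hxT H hH => ?_⟩
  · have h1 := h T hT x hx0 hxT (fun j => 8 * (1 / ((j : ℝ) + 1) - 1 / (j + 2))) hpos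
    have h2 : ∑ s ∈ ZZ T, mm s * ww (x - s.im) ≤ ∑ s ∈ ZZ T, mm s *
        (8 * (1 / ((⌊|s.im - x|⌋₊ : ℝ) + 1) - 1 / (⌊|s.im - x|⌋₊ + 2))) :=
      Finset.sum_le_sum fun s _ => mul_le_mul_of_nonneg_left (hw x s) (mm_nonneg s)
    have h3 := tele (⌊T⌋₊ + 1)
    have h4 := mul_le_mul_of_nonneg_left h3 hCL.le
    linarith
  · have h1 := h T hT x hx0 hxT
      (fun j => 8 * (1 / ((j : ℝ) + 1) - 1 / (j + 2)) * min ((j : ℝ) + 1) H)
      fun j => mul_nonneg (hpos j) (by positivity)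
    have h2 : ∑ s ∈ ZZ T, mm s * (ww (x - s.im) * min |x - s.im| H) ≤ ∑ s ∈ ZZ T, mm s *
        (8 * (1 / ((⌊|s.im - x|⌋₊ : ℝ) + 1) - 1 / (⌊|s.im - x|⌋₊ + 2)) *
          min ((⌊|s.im - x|⌋₊ : ℝ) + 1) H) := by
      refine Finset.sum_le_sum fun s _ => mul_le_mul_of_nonneg_left ?_ (mm_nonneg s)
      refine mul_le_mul (hw x s) ?_ (by positivity) (hpos _)
      rw [abs_sub_comm x]
      exact min_le_min_right _ (Nat.lt_floor_add_one _).le
    have h3 := tele2 hH (⌊T⌋₊ + 1)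
    have h4 := mul_le_mul_of_nonneg_left h3 hCL.le
    linarith
  · have h1 := h T hT 0 le_rfl (by linarith) (fun _ => 1) fun _ => zero_le_one
    simp only [mul_one, Finset.sum_const, Finset.card_range, nsmul_eq_mul] at h1
    have h2 := Nat.floor_le (show 0 ≤ T by linarith)
    push_cast at h1
    have h3 : C * Real.log T * ((⌊T⌋₊ : ℝ) + 1) ≤ C * Real.log T * (2 * T) := by
      gcongr
      linarith
    have h4 : 0 < C * Real.log T * T := by positivity
    linarith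
  · have h1 := h T hT x hx0 hxT (fun j => if (j : ℝ) < H then 1 else 0) fun j => by
      split_ifs <;> norm_num
    have h2 : ∑ s ∈ ZZ T, mm s * (if |s.im - x| < H then (1 : ℝ) else 0) ≤
        ∑ s ∈ ZZ T, mm s * (if (⌊|s.im - x|⌋₊ : ℝ) < H then 1 else 0) := by
      refine Finset.sum_le_sum fun s _ => mul_le_mul_of_nonneg_left ?_ (mm_nonneg s)
      have h5 := Nat.floor_le (abs_nonneg (s.im - x))
      by_cases h3 : |s.im - x| < H
      · rw [if_pos h3, if_pos (by linarith)]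
      · rw [if_neg h3]
        split_ifs <;> norm_num
    have h3 : ∑ j ∈ Finset.range (⌊T⌋₊ + 1), (if (j : ℝ) < H then (1 : ℝ) else 0) ≤ 2 * H := by
      rw [← Finset.sum_filter, Finset.sum_const, nsmul_eq_mul, mul_one]
      have h4 : (Finset.range (⌊T⌋₊ + 1)).filter (fun j : ℕ => (j : ℝ) < H) ⊆
          Finset.range ⌈H⌉₊ := by
        intro j hj
        rw [Finset.mem_filter] at hj
        exact Finset.mem_range.2 (Nat.lt_ceil.2 hj.2)
      have h5 := Finset.card_le_card h4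
      rw [Finset.card_range] at h5
      have h6 : ((⌈H⌉₊ : ℕ) : ℝ) < H + 1 := Nat.ceil_lt_add_one (by linarith)
      have h7 : ((Finset.card ((Finset.range (⌊T⌋₊ + 1)).filter fun j : ℕ => (j : ℝ) < H) : ℕ) :
          ℝ) ≤ ((⌈H⌉₊ : ℕ) : ℝ) := by exact_mod_cast h5
      linarith
    have h4 := mul_le_mul_of_nonneg_left h3 hCL.le
    have h5 : 0 < C * Real.log T * H := by positivity
    linarith

end Pool.Agent.Q85.Mon
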